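import Pool.Agent.Sc72.Full

/-!
Congruence lemmas in generic complete Boolean algebras, in the form of the row R5.
-/

namespace Pool.Agent.Sc72

open Set Pool.Agent.Nm65

variable {B : Type*} [CompleteBooleanAlgebra B] {T : Type*}

lemma vEq_refl (x : T → B) : vEq x x = ⊤ := vEq_self x

lemma vEq_symm (x y : T → B) : vEq x y = vEq y x := vEq_comm x y

/-- The maximum principle. -/
theorem max_principle {F : (T → B) → B} (hF : Ext F) : ∃ x, ∀ y, F y ≤ F x := by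
  obtain ⟨x, hx⟩ := exists_max hF
  exact ⟨x, fun y => by rw [hx]; exact le_iSup F y⟩

lemma vOmega_congr (c d : ℕ × K → B) : vOmega c ⊓ vEq c d ≤ vOmega d := ext_vOmega c d

lemma vMem_congr (x : ℕ → B) (c d : ℕ × K → B) (n : ℕ) : vMem x c n ⊓ vEq c d ≤ vMem x d n :=
  ext_vMem_right x n c d

lemma vNSub_congr {J : (ℕ → B) → B} (hJ : Ext J) (c c' d d' : ℕ × K → B) :
    vNSub J c d ⊓ vEq c c' ⊓ vEq d d' ≤ vNSub J c' d' :=
  (inf_le_inf_right _ (ext_vNSub_left hJ d c c')).trans (ext_vNSub_right hJ c' d d')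

lemma vNsSub_congr {J : (ℕ → B) → B} (hJ : Ext J) (c c' d d' : ℕ × K → B) :
    vNsSub J c d ⊓ vEq c c' ⊓ vEq d d' ≤ vNsSub J c' d' :=
  (inf_le_inf_right _ (ext_vNsSub_left hJ d c c')).trans (ext_vNsSub_right hJ c' d d')

/-- The Boolean-valued set of the members of a family. -/
def fam {Ξ : Type*} (c : Ξ → T → B) (x : T → B) : B := ⨆ ξ, vEq x (c ξ)

lemma ext_fam {Ξ : Type*} (c : Ξ → T → B) : Ext (fam c) :=
  Ext.iSup fun ξ => Ext.vEq_left (c ξ)

lemma fam_self {Ξ : Type*} (c : Ξ → T → B) (ξ : Ξ) : fam c (c ξ) = ⊤ := by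
  apply top_unique
  exact (vEq_self (c ξ)).ge.trans (le_iSup (fun η => vEq (c ξ) (c η)) ξ)

/-- A statement about all members of a family. -/
lemma le_fam_himp {Ξ : Type*} (c : Ξ → T → B) {G : (T → B) → B} (hG : Ext G) (b : B)
    (h : ∀ ξ, b ≤ G (c ξ)) (x : T → B) : b ≤ fam c x ⇨ G x := by
  rw [le_himp_iff]
  unfold fam
  rw [inf_iSup_eq]
  refine iSup_le fun ξ => ?_
  have h1 := hG (c ξ) x
  rw [vEq_comm] at h1
  exact (inf_le_inf_right _ (h ξ)).trans h1

end Pool.Agent.Sc72
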