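import Pool.Agent.Sc72.Names

/-!
MP_50671f, Scott form: the Boolean-valued ideal of a name of an ideal.
-/

namespace Pool.Agent.Sc72

open Set Filter TopologicalSpace Cardinal Pool.Agent.Nm65 Pool.Agent.Fo65

variable {I : Type}

lemma name_of {T : Type} [Countable T] (x : T → RO (Coh I)) : ∃ f : Coh I → Set T,
    Measurable f ∧ ∀ᶠ p in residual (Coh I), ∀ t, In p (x t) ↔ t ∈ f p :=
  ⟨nm x, measurable_nm x, Eventually.of_forall fun _ _ => Iff.rfl⟩

lemma frc_countable {ι : Sort*} [Countable ι] {φ : ι → Coh I → Prop}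
    (h : ∀ i, ∀ᶠ p in residual (Coh I), φ i p) : ∀ᶠ p in residual (Coh I), ∀ i, φ i p :=
  eventually_countable_forall.2 h

/-- Boolean-valued names of a Borel name. -/
lemma of_name' {T : Type} [Countable T] {f : Coh I → Set T} (hf : Measurable f) :
    ∀ᶠ p in residual (Coh I), ∀ t, In p (val fun q => t ∈ f q) ↔ t ∈ f p :=
  frc_countable fun t => frc_val ((measurable_set_iff.1 hf t).setOf)

/-- Points where the Boolean-valued equality holds. -/
lemma in_vEq {T : Type} [Countable T] (x y : T → RO (Coh I)) :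
    ∀ᶠ p in residual (Coh I), In p (vEq x y) → ∀ t, In p (x t) ↔ In p (y t) := by
  have h : ∀ᶠ p in residual (Coh I), ∀ t,
      (In p (x t ⇨ y t) ↔ (In p (x t) → In p (y t))) ∧
      (In p (y t ⇨ x t) ↔ (In p (y t) → In p (x t))) :=
    frc_countable fun t => (frc_himp (x t) (y t)).and (frc_himp (y t) (x t))
  filter_upwards [h] with p hp hE t
  have h1 : In p ((x t ⇨ y t) ⊓ (y t ⇨ x t)) := in_iInf hE t
  obtain ⟨h2, h3⟩ := in_inf.1 h1
  exact ⟨(hp t).1.1 h2, (hp t).2.1 h3⟩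

/-- The initial segment relation at a point. -/
lemma in_vInit (s : List Bool) (x : ℕ → RO (Coh I)) :
    ∀ᶠ p in residual (Coh I), ∀ A : Set ℕ, (∀ n, In p (x n) ↔ n ∈ A) →
      (In p (vInit s x) ↔ Init s A) := by
  have h1 : ∀ᶠ p in residual (Coh I), In p (vInit s x) ↔
      ∀ i : Fin s.length, In p (if s.get i = true then x i else (x i)ᶜ) := frc_iInf _
  have h2 : ∀ᶠ p in residual (Coh I), ∀ n, In p (x n)ᶜ ↔ ¬ In p (x n) :=
    frc_countable fun n => frc_compl (x n)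
  filter_upwards [h1, h2] with p hp1 hp2 A hA
  rw [hp1]
  constructor
  · intro h k hk
    have h3 := h ⟨k, hk⟩
    by_cases hs : s.get ⟨k, hk⟩ = true
    · rw [if_pos hs] at h3
      exact iff_of_true hs ((hA k).1 h3)
    · rw [if_neg hs] at h3
      exact iff_of_false hs fun hkA => ((hp2 k).1 h3) ((hA k).2 hkA)
  · intro h i
    have h3 := h i i.isLt
    by_cases hs : s.get i = true
    · rw [if_pos hs]
      exact (hA i).2 (h3.1 hs)
    · rw [if_neg hs]
      exact (hp2 i).2 fun hk => hs (h3.2 ((hA i).1 hk))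

theorem exists_JB {J : (Coh I → Set ℕ) → Set (Coh I)} (hJ : IdealName J) :
    ∃ JB : (ℕ → RO (Coh I)) → RO (Coh I),
      (∀ (x : ℕ → RO (Coh I)) (A : Coh I → Set ℕ), Measurable A → ∀ᶠ p in residual (Coh I),
        (∀ n, In p (x n) ↔ n ∈ A p) → (In p (JB x) ↔ p ∈ J A)) ∧
      Ext JB ∧ vIdeal JB = ⊤ ∧ (NonMeagerName J → vNonMeager JB = ⊤) := by
  choose A hAm hA using fun x : ℕ → RO (Coh I) => name_of x
  let JB : (ℕ → RO (Coh I)) → RO (Coh I) := fun x => val fun p => p ∈ J (A x)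
  have hJB : ∀ x, ∀ᶠ p in residual (Coh I), In p (JB x) ↔ p ∈ J (A x) := fun x =>
    frc_val_open (hJ.isOpen (A x))
  have key : ∀ (x : ℕ → RO (Coh I)) (A' : Coh I → Set ℕ), Measurable A' →
      ∀ᶠ p in residual (Coh I), (∀ n, In p (x n) ↔ n ∈ A' p) → (In p (JB x) ↔ p ∈ J A') := by
    intro x A' hA'
    filter_upwards [hJB x, hA x, hJ.sub (A x) A' (hAm x) hA', hJ.sub A' (A x) hA' (hAm x)]
      with p h1 h2 h3 h4 h5
    have h6 : A x p = A' p := by
      ext n
      rw [← h2 n, h5 n]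
    rw [h1]
    exact ⟨h3 h6.ge, h4 h6.le⟩
  have hle : ∀ {a b : RO (Coh I)}, (∀ᶠ p in residual (Coh I), In p a → In p b) → a ≤ b :=
    fun h => le_iff.2 h
  refine ⟨JB, key, ?_, ?_, ?_⟩
  · intro x y
    refine hle ?_
    filter_upwards [in_vEq x y, key x (A y) (hAm y), key y (A y) (hAm y), hA y]
      with p h1 h2 h3 h4 h5
    obtain ⟨h6, h7⟩ := in_inf.1 h5
    exact (h3 h4).2 ((h2 fun n => (h1 h7 n).trans (h4 n)).1 h6)
  · unfold vIdeal
    simp only [inf_eq_top_iff, iInf_eq_top, himp_eq_top_iff]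
    refine ⟨⟨⟨fun x y => hle ?_, fun x y => hle ?_⟩, fun x => hle ?_⟩, ?_⟩
    · have h0 : ∀ᶠ p in residual (Coh I), ∀ n, In p (y n ⇨ x n) ↔ (In p (y n) → In p (x n)) :=
        frc_countable fun n => frc_himp (y n) (x n)
      filter_upwards [h0, hJB x, hJB y, hA x, hA y, hJ.sub (A x) (A y) (hAm x) (hAm y)]
        with p g0 g1 g2 g3 g4 g5 g6
      obtain ⟨g7, g8⟩ := in_inf.1 g6
      rw [g2]
      refine g5 (fun n hn => ?_) (g1.1 g7)
      rw [← g3 n]
      exact (g0 n).1 (in_iInf g8 n) ((g4 n).2 hn)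
    · have h0 : ∀ᶠ p in residual (Coh I), ∀ n, In p (x n ⊔ y n) ↔ (In p (x n) ∨ In p (y n)) :=
        frc_countable fun n => frc_sup (x n) (y n)
      have hm : Measurable fun p => A x p ∪ A y p := by
        rw [measurable_set_iff]
        intro n
        show Measurable fun p => n ∈ A x p ∨ n ∈ A y p
        exact (measurable_set_iff.1 (hAm x) n).or (measurable_set_iff.1 (hAm y) n)
      filter_upwards [h0, hJB x, hJB y, hA x, hA y, key (fun n => x n ⊔ y n) _ hm,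
        hJ.union (A x) (A y) (hAm x) (hAm y)] with p g0 g1 g2 g3 g4 g5 g6 g7
      obtain ⟨g8, g9⟩ := in_inf.1 g7
      refine (g5 fun n => ?_).2 (g6 (g1.1 g8) (g2.1 g9))
      rw [g0 n, g3 n, g4 n]
      rfl
    · have h0 : ∀ᶠ p in residual (Coh I), ∀ n, In p (x n)ᶜ ↔ ¬ In p (x n) :=
        frc_countable fun n => frc_compl (x n)
      have h1 : ∀ᶠ p in residual (Coh I),
          In p (⨆ m : ℕ, ⨅ n : ℕ, ⨅ _ : m ≤ n, (x n)ᶜ) ↔ ∃ m : ℕ, In p (⨅ n : ℕ, ⨅ _ : m ≤ n, (x n)ᶜ) :=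
        frc_iSup _
      filter_upwards [h0, h1, hJB x, hA x, hJ.fin (A x) (hAm x)] with p g0 g1 g2 g3 g4 g5
      rw [g2]
      refine g4 ?_
      obtain ⟨m, hm⟩ := g1.1 g5
      refine (Set.finite_lt_nat m).subset fun n hn => ?_
      by_contra hcon
      have h2 : In p (x n)ᶜ := in_iInf (in_iInf hm n) (not_lt.1 hcon)
      exact (g0 n).1 h2 ((g3 n).2 hn)
    · rw [eq_top_iff']
      show ∀ᶠ p in residual (Coh I), In p (JB fun _ => ⊤)ᶜ
      filter_upwards [frc_compl (JB fun _ => ⊤),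
        key (fun _ => ⊤) (fun _ => Set.univ) measurable_const, hJ.proper] with p g0 g1 g2
      rw [g0, g1 fun n => iff_of_true (in_top p) (mem_univ n)]
      exact g2
  · intro hN
    unfold vNonMeager
    rw [iInf_eq_top]
    intro D
    rw [himp_eq_top_iff]
    obtain ⟨W1, hW1m, hW1⟩ := name_of D
    have hW1n : ∀ q, Measurable fun p => q ∈ W1 p := measurable_set_iff.1 hW1m
    let W : Coh I → Set (ℕ × List Bool) := fun p =>
      {q | q ∈ W1 p ∨ ¬ ∀ (k : ℕ) (t : List Bool), ∃ u : List Bool, (k, t ++ u) ∈ W1 p}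
    have hWm : Measurable W := by
      rw [measurable_set_iff]
      intro q
      show Measurable fun p => q ∈ W1 p ∨
        ¬ ∀ (k : ℕ) (t : List Bool), ∃ u : List Bool, (k, t ++ u) ∈ W1 p
      refine (hW1n q).or (Measurable.not ?_)
      exact Measurable.forall fun k => Measurable.forall fun t => Measurable.exists fun u =>
        hW1n (k, t ++ u)
    obtain ⟨A', hA'm, hA'⟩ := hN W hWm (Eventually.of_forall fun p k s => by
      by_cases h : ∀ (k : ℕ) (t : List Bool), ∃ u : List Bool, (k, t ++ u) ∈ W1 p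
      · obtain ⟨u, hu⟩ := h k s
        exact ⟨s ++ u, List.prefix_append _ _, Or.inl hu⟩
      · exact ⟨s, List.prefix_refl _, Or.inr h⟩)
    let x : ℕ → RO (Coh I) := fun n => val fun q => n ∈ A' q
    have hx := of_name' hA'm
    refine le_trans (hle ?_) (le_iSup (fun x : ℕ → RO (Coh I) =>
      JB x ⊓ ⨅ k : ℕ, ⨆ s : List Bool, D (k, s) ⊓ vInit s x) x)
    have h1 : ∀ᶠ p in residual (Coh I), ∀ kt : ℕ × List Bool,
        In p (⨆ u : List Bool, D (kt.1, kt.2 ++ u)) ↔ ∃ u, In p (D (kt.1, kt.2 ++ u)) :=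
      frc_countable fun kt => frc_iSup _
    have h2 : ∀ᶠ p in residual (Coh I), ∀ (s : List Bool) (A : Set ℕ),
        (∀ n, In p (x n) ↔ n ∈ A) → (In p (vInit s x) ↔ Init s A) :=
      frc_countable fun s => in_vInit s x
    have h3 : ∀ᶠ p in residual (Coh I), In p (⨅ k : ℕ, ⨆ s : List Bool, D (k, s) ⊓ vInit s x) ↔
        ∀ k : ℕ, In p (⨆ s : List Bool, D (k, s) ⊓ vInit s x) := frc_iInf _
    filter_upwards [hW1, hA', hx, h1, h2, h3, key x A' hA'm] with p g1 g2 g3 g4 g5 g6 g7 g8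
    have hd : ∀ (k : ℕ) (t : List Bool), ∃ u : List Bool, (k, t ++ u) ∈ W1 p := by
      intro k t
      have a1 : In p (⨆ u : List Bool, D (k, t ++ u)) := in_iInf (in_iInf g8 k) t
      obtain ⟨u, hu⟩ := (g4 (k, t)).1 a1
      exact ⟨u, (g1 _).1 hu⟩
    refine in_inf.2 ⟨(g7 g3).2 g2.1, g6.2 fun k => ?_⟩
    obtain ⟨t, ht1, ht2⟩ := g2.2 k
    have ht3 : (k, t) ∈ W1 p := ht1.resolve_right fun h => h hd
    exact in_iSup (i := t) (in_inf.2 ⟨(g1 _).2 ht3, (g5 t (A' p) g3).2 ht2⟩)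

end Pool.Agent.Sc72
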