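import Pool.Agent.Nm65.Defs

/-!
R6: a point outside the limsup of a sequence of clopen sets, Borel in the sequence (the leftmost
point of the complement of the first tail union which is not the whole space).
-/

namespace Pool.Agent.Sc72

open Set MeasureTheory Pool.Agent.Nm65

namespace Left11

/-- The cylinder of a finite sequence, written backwards. -/
def cyR : List Bool → Set Cantor
  | [] => Set.univ
  | b :: s => {z | z ∈ cyR s ∧ z s.length = b}

lemma cyR_split (s : List Bool) {z : Cantor} (h : z ∈ cyR s) :
    z ∈ cyR (false :: s) ∨ z ∈ cyR (true :: s) := by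
  rcases hb : z s.length with _ | _
  · exact Or.inl ⟨h, hb⟩
  · exact Or.inr ⟨h, hb⟩

lemma isClosed_cyR : ∀ s : List Bool, IsClosed (cyR s)
  | [] => isClosed_univ
  | b :: s => by
    have h1 := isClosed_cyR s
    have h2 : IsClosed {z : Cantor | z s.length = b} :=
      isClosed_eq (continuous_apply s.length) continuous_const
    exact h1.inter h2

instance : Countable (TopologicalSpace.Clopens Cantor) :=
  TopologicalSpace.Clopens.countable_iff_secondCountable.mpr inferInstance

variable {X : Type} [MeasurableSpace X] {d : X → ℕ → TopologicalSpace.Clopens Cantor}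

/-- The union of the sets with numbers from `m` to `m + l - 1`. -/
def part (d : X → ℕ → TopologicalSpace.Clopens Cantor) (m : ℕ) :
    ℕ → X → TopologicalSpace.Clopens Cantor
  | 0, _ => ⊥
  | l + 1, x => part d m l x ⊔ d x (m + l)

lemma mem_part (m : ℕ) (x : X) (z : Cantor) : ∀ l, z ∈ part d m l x ↔ ∃ j < l, z ∈ d x (m + j)
  | 0 => by
    change z ∈ ((⊥ : TopologicalSpace.Clopens Cantor) : Set Cantor) ↔ _
    rw [TopologicalSpace.Clopens.coe_bot]
    simp
  | l + 1 => by
    change z ∈ ((part d m l x ⊔ d x (m + l) : TopologicalSpace.Clopens Cantor) : Set Cantor) ↔ _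
    rw [TopologicalSpace.Clopens.coe_sup, Set.mem_union, SetLike.mem_coe, SetLike.mem_coe,
      mem_part m x z l]
    constructor
    · rintro (⟨j, hj, h⟩ | h)
      · exact ⟨j, by omega, h⟩
      · exact ⟨l, by omega, h⟩
    · rintro ⟨j, hj, h⟩
      rcases Nat.lt_or_ge j l with h1 | h1
      · exact Or.inl ⟨j, h1, h⟩
      · have : j = l := by omega
        subst this
        exact Or.inr h

lemma meas_part (hd : ∀ n a, MeasurableSet {x | d x n = a}) (m : ℕ) :
    ∀ l a, MeasurableSet {x | part d m l x = a}
  | 0, a => by simp only [part]; exact MeasurableSet.const _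
  | l + 1, a => by
    have : {x | part d m (l + 1) x = a} = ⋃ (b : TopologicalSpace.Clopens Cantor)
        (c : TopologicalSpace.Clopens Cantor) (_ : b ⊔ c = a),
        {x | part d m l x = b} ∩ {x | d x (m + l) = c} := by
      ext x
      simp only [part, mem_ofPred_eq, mem_iUnion, mem_inter_iff, exists_prop]
      constructor
      · intro h
        exact ⟨_, _, h, rfl, rfl⟩
      · rintro ⟨b, c, h, rfl, rfl⟩
        exact h
    rw [this]
    exact MeasurableSet.iUnion fun b => MeasurableSet.iUnion fun c => MeasurableSet.iUnion fun _ =>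
      (meas_part hd m l b).inter (hd (m + l) c)

/-- The cylinder is covered by the tail union. -/
def Cov (d : X → ℕ → TopologicalSpace.Clopens Cantor) (m : ℕ) (s : List Bool) (x : X) : Prop :=
  ∀ z ∈ cyR s, ∃ j, z ∈ d x (m + j)

lemma cov_iff (m : ℕ) (s : List Bool) (x : X) :
    Cov d m s x ↔ ∃ l, cyR s ⊆ (part d m l x : Set Cantor) := by
  constructor
  · intro h
    have hc : IsCompact (cyR s) := (isClosed_cyR s).isCompact
    obtain ⟨t, ht⟩ := hc.elim_finite_subcover (fun l : ℕ => (part d m l x : Set Cantor))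
      (fun l => (part d m l x).isClopen.isOpen) (by
        intro z hz
        obtain ⟨j, hj⟩ := h z hz
        rw [mem_iUnion]
        exact ⟨j + 1, (mem_part m x z (j + 1)).mpr ⟨j, by omega, hj⟩⟩)
    refine ⟨t.sup id, fun z hz => ?_⟩
    have h1 := ht hz
    rw [mem_iUnion₂] at h1
    obtain ⟨l, hl, hzl⟩ := h1
    obtain ⟨j, hj, hj'⟩ := (mem_part m x z l).mp hzl
    have : l ≤ t.sup id := Finset.le_sup (f := id) hl
    exact (mem_part m x z _).mpr ⟨j, by omega, hj'⟩
  · rintro ⟨l, hl⟩ z hz
    obtain ⟨j, -, hj⟩ := (mem_part m x z l).mp (hl hz)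
    exact ⟨j, hj⟩

lemma meas_cov (hd : ∀ n a, MeasurableSet {x | d x n = a}) (m : ℕ) (s : List Bool) :
    MeasurableSet {x | Cov d m s x} := by
  have : {x | Cov d m s x} = ⋃ (l : ℕ) (a : TopologicalSpace.Clopens Cantor)
      (_ : cyR s ⊆ (a : Set Cantor)), {x | part d m l x = a} := by
    ext x
    rw [mem_ofPred_eq, cov_iff]
    simp only [mem_iUnion, mem_ofPred_eq, exists_prop]
    constructor
    · rintro ⟨l, hl⟩
      exact ⟨l, _, hl, rfl⟩
    · rintro ⟨l, a, ha, rfl⟩
      exact ⟨l, ha⟩
  rw [this]
  exact MeasurableSet.iUnion fun l => MeasurableSet.iUnion fun a => MeasurableSet.iUnion fun _ =>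
    meas_part hd m l a

/-- The cylinder meets the complement of the first tail union which is not the whole space. -/
def Q (d : X → ℕ → TopologicalSpace.Clopens Cantor) (s : List Bool) (x : X) : Prop :=
  ∃ m, (¬ Cov d m [] x ∧ ∀ j < m, Cov d j [] x) ∧ ¬ Cov d m s x

lemma meas_Q (hd : ∀ n a, MeasurableSet {x | d x n = a}) (s : List Bool) :
    MeasurableSet {x | Q d s x} := by
  have : {x | Q d s x} = ⋃ m : ℕ, ({x | Cov d m [] x}ᶜ ∩ ⋂ (j : ℕ) (_ : j < m),
      {x | Cov d j [] x}) ∩ {x | Cov d m s x}ᶜ := by
    ext x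
    simp only [Q, mem_ofPred_eq, mem_iUnion, mem_inter_iff, mem_compl_iff, mem_iInter]
  rw [this]
  exact MeasurableSet.iUnion fun m => (((meas_cov hd m []).compl).inter
    (MeasurableSet.iInter fun j => MeasurableSet.iInter fun _ => meas_cov hd j [])).inter
    (meas_cov hd m s).compl

lemma Q_split {s : List Bool} {x : X} (h : Q d s x) : Q d (false :: s) x ∨ Q d (true :: s) x := by
  obtain ⟨m, hm, h⟩ := h
  by_contra hcon
  push Not at hcon
  apply h
  intro z hz
  have h1 : Cov d m (false :: s) x := by
    by_contra h2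
    exact hcon.1 ⟨m, hm, h2⟩
  have h2 : Cov d m (true :: s) x := by
    by_contra h3
    exact hcon.2 ⟨m, hm, h3⟩
  rcases cyR_split s hz with h3 | h3
  · exact h1 z h3
  · exact h2 z h3

open Classical in
/-- The next bit. -/
noncomputable def bit (d : X → ℕ → TopologicalSpace.Clopens Cantor) (s : List Bool) (x : X) :
    Bool :=
  if Q d (false :: s) x then false else true

/-- The initial segments of the leftmost branch, written backwards. -/
noncomputable def pre (d : X → ℕ → TopologicalSpace.Clopens Cantor) (x : X) : ℕ → List Bool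
  | 0 => []
  | i + 1 => bit d (pre d x i) x :: pre d x i

/-- The leftmost branch. -/
noncomputable def br (d : X → ℕ → TopologicalSpace.Clopens Cantor) (x : X) : Cantor :=
  fun i => bit d (pre d x i) x

lemma pre_length (x : X) : ∀ i, (pre d x i).length = i
  | 0 => rfl
  | i + 1 => by rw [pre, List.length_cons, pre_length x i]

lemma mem_cyR_pre (x : X) (z : Cantor) : ∀ i, z ∈ cyR (pre d x i) ↔ ∀ j < i, z j = br d x j
  | 0 => by simp [pre, cyR]
  | i + 1 => by
    rw [pre, cyR, mem_ofPred_eq, mem_cyR_pre x z i, pre_length]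
    constructor
    · rintro ⟨h1, h2⟩ j hj
      rcases Nat.lt_or_ge j i with h | h
      · exact h1 j h
      · have : j = i := by omega
        subst this
        exact h2
    · intro h
      exact ⟨fun j hj => h j (by omega), h i (by omega)⟩

lemma Q_pre {x : X} (h : Q d [] x) : ∀ i, Q d (pre d x i) x
  | 0 => h
  | i + 1 => by
    have ih := Q_pre h i
    rw [pre, bit]
    split_ifs with h1
    · exact h1
    · exact (Q_split ih).resolve_left h1

lemma meas_bit (hd : ∀ n a, MeasurableSet {x | d x n = a}) (s : List Bool) (c : Bool) :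
    MeasurableSet {x | bit d s x = c} := by
  have h := meas_Q hd (false :: s)
  cases c with
  | false =>
    convert h using 1
    ext x
    simp only [mem_ofPred_eq, bit]
    split_ifs with h1 <;> simp [h1]
  | true =>
    convert h.compl using 1
    ext x
    simp only [mem_ofPred_eq, mem_compl_iff, bit]
    split_ifs with h1 <;> simp [h1]

lemma meas_pre (hd : ∀ n a, MeasurableSet {x | d x n = a}) :
    ∀ (i : ℕ) (s : List Bool), MeasurableSet {x | pre d x i = s}
  | 0, s => by simp only [pre]; exact MeasurableSet.const _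
  | i + 1, [] => by simp [pre]
  | i + 1, c :: s => by
    have : {x | pre d x (i + 1) = c :: s} = {x | bit d s x = c} ∩ {x | pre d x i = s} := by
      ext x
      simp only [pre, List.cons.injEq, mem_ofPred_eq, mem_inter_iff]
      constructor
      · rintro ⟨h1, h2⟩
        exact ⟨by rw [← h2]; exact h1, h2⟩
      · rintro ⟨h1, h2⟩
        exact ⟨by rw [h2]; exact h1, h2⟩
    rw [this]
    exact (meas_bit hd s c).inter (meas_pre hd i s)

lemma meas_br (hd : ∀ n a, MeasurableSet {x | d x n = a}) : Measurable (br d) := by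
  rw [measurable_pi_iff]
  intro i
  apply measurable_to_bool
  have : (fun x => br d x i) ⁻¹' {true} = ⋃ s : List Bool,
      {x | bit d s x = true} ∩ {x | pre d x i = s} := by
    ext x
    simp only [mem_preimage, mem_singleton_iff, mem_iUnion, mem_inter_iff, mem_ofPred_eq, br]
    constructor
    · intro h
      exact ⟨_, h, rfl⟩
    · rintro ⟨s, h1, rfl⟩
      exact h1
  rw [this]
  exact MeasurableSet.iUnion fun s => (meas_bit hd s true).inter (meas_pre hd i s)

end Left11

open Left11 in
/-- R6: a point outside the limsup, Borel in the sequence. -/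
theorem exists_point {X : Type} [MeasurableSpace X] (d : X → ℕ → TopologicalSpace.Clopens Cantor)
    (hd : ∀ n a, MeasurableSet {x | d x n = a}) : ∃ y : X → Cantor, Measurable y ∧
      ∀ x, (OmegaBar fun n => (d x n : Set Cantor)) → {n | y x ∈ d x n}.Finite := by
  classical
  refine ⟨br d, meas_br hd, fun x hx => ?_⟩
  have hex : ∃ m, ¬ Cov d m [] x := by
    by_contra hcon
    push Not at hcon
    have h1 : {z : Cantor | {n | z ∈ (d x n : Set Cantor)}.Infinite} = Set.univ := by
      rw [Set.eq_univ_iff_forall]
      intro z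
      rw [mem_ofPred_eq, Set.infinite_iff_exists_gt]
      intro m
      obtain ⟨j, hj⟩ := hcon (m + 1) z (mem_univ z)
      exact ⟨m + 1 + j, hj, by omega⟩
    have h2 := hx.2
    rw [h1, measure_univ] at h2
    exact one_ne_zero h2
  have hQ : Q d [] x :=
    ⟨Nat.find hex, ⟨Nat.find_spec hex, fun j hj => not_not.mp (Nat.find_min hex hj)⟩,
      Nat.find_spec hex⟩
  have hpre := Q_pre hQ
  have hm : ∀ i, ¬ Cov d (Nat.find hex) (pre d x i) x := by
    intro i
    obtain ⟨m, ⟨h1, h2⟩, h3⟩ := hpre i
    have : m = Nat.find hex := by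
      rcases lt_trichotomy m (Nat.find hex) with h | h | h
      · exact absurd h1 (Nat.find_min hex h)
      · exact h
      · exact absurd (h2 _ h) (Nat.find_spec hex)
    rw [← this]
    exact h3
  have hout : ∀ n, Nat.find hex ≤ n → br d x ∉ d x n := by
    intro n hn hmem
    obtain ⟨j, rfl⟩ : ∃ j, n = Nat.find hex + j := ⟨n - Nat.find hex, by omega⟩
    have hopen : IsOpen ((d x (Nat.find hex + j) : TopologicalSpace.Clopens Cantor) : Set Cantor) :=
      (d x (Nat.find hex + j)).isClopen.isOpen
    obtain ⟨s, ⟨z0, i, rfl⟩, hs1, hs2⟩ :=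
      (PiNat.isTopologicalBasis_cylinders (fun _ : ℕ => Bool)).exists_subset_of_mem_open
        (show br d x ∈ ((d x (Nat.find hex + j) : TopologicalSpace.Clopens Cantor) : Set Cantor)
          from hmem) hopen
    apply hm i
    intro z hz
    refine ⟨j, hs2 ?_⟩
    rw [mem_cyR_pre] at hz
    rw [PiNat.mem_cylinder_iff] at hs1 ⊢
    intro k hk
    rw [hz k hk, hs1 k hk]
  apply (Set.finite_lt_nat (Nat.find hex)).subset
  intro n hn
  by_contra hcon
  exact hout n (not_lt.mp hcon) hn

end Pool.Agent.Sc72
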