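import Pool.Agent.Sc72.Seq
import Pool.Agent.Sc72.Gen
import Pool.Agent.Sc72.Left
import Pool.Agent.Sc72.Ideal

/-!
The transfer: from Borel names and residual sets to Boolean values.
-/

namespace Pool.Agent.Sc72

open Set Filter TopologicalSpace Cardinal Pool.Agent.Nm65 Pool.Agent.Fo65

namespace PQ

variable {I : Type} {J : (Coh I → Set ℕ) → Set (Coh I)} {JB : (ℕ → RO (Coh I)) → RO (Coh I)}

/-- The value of the ideal. -/
def Eval (J : (Coh I → Set ℕ) → Set (Coh I)) (JB : (ℕ → RO (Coh I)) → RO (Coh I)) : Prop :=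
  ∀ (x : ℕ → RO (Coh I)) (A : Coh I → Set ℕ), Measurable A → Frc fun p =>
        (∀ n, In p (x n) ↔ n ∈ A p) → (In p (JB x) ↔ p ∈ J A)

lemma measurable_mem {c' : Coh I → ℕ → K} (hc : ∀ n a, MeasurableSet {p | c' p n = a})
    {y : Coh I → Cantor} (hy : Measurable y) (n : ℕ) : MeasurableSet {p | y p ∈ c' p n} := by
  have : {p | y p ∈ c' p n} = ⋃ a : K, {p | c' p n = a} ∩ y ⁻¹' (a : Set Cantor) := by
    ext p
    simp only [Set.mem_ofPred_eq, Set.mem_iUnion, Set.mem_inter_iff, Set.mem_preimage]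
    exact ⟨fun h => ⟨c' p n, rfl, h⟩, fun ⟨a, ha, h⟩ => by rw [ha]; exact h⟩
  rw [this]
  have : Countable K := inferInstance
  refine MeasurableSet.iUnion fun a => (hc n a).inter (hy ?_)
  exact a.isClopen.isOpen.measurableSet

lemma measurable_A {c' : Coh I → ℕ → K} (hc : ∀ n a, MeasurableSet {p | c' p n = a})
    {y : Coh I → Cantor} (hy : Measurable y) : Measurable fun z => {n | y z ∈ c' z n} :=
  measurable_set_iff.2 fun n => (measurable_mem hc hy n).mem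

lemma measurable_As {c' : Coh I → ℕ → K} (hc : ∀ n a, MeasurableSet {p | c' p n = a})
    {y : Coh I → Cantor} (hy : Measurable y) : Measurable fun z => {n | y z ∉ c' z n} :=
  measurable_set_iff.2 fun n => (measurable_mem hc hy n).compl.mem

lemma ev_vN (hE : Eval J JB) {c : ℕ × K → RO (Coh I)} {x : ℕ → RO (Coh I)}
    {c' : Coh I → ℕ → K} (hc : ∀ n a, MeasurableSet {p | c' p n = a}) {y : Coh I → Cantor}
    (hy : Measurable y) : Frc fun p => At c p (c' p) → PtAt x p (y p) →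
      (In p (vN JB c x) ↔ p ∉ J fun z => {n | y z ∈ c' z n}) := by
  filter_upwards [ev_vMem x c, hE (fun n => vMem x c n) _ (measurable_A hc hy),
    frc_compl (JB fun n => vMem x c n)] with p h1 h2 h3 h4 h5
  unfold vN
  rw [h3, h2 (fun n => h1 _ _ h5 h4 n)]

lemma ev_vNs (hE : Eval J JB) {c : ℕ × K → RO (Coh I)} {x : ℕ → RO (Coh I)}
    {c' : Coh I → ℕ → K} (hc : ∀ n a, MeasurableSet {p | c' p n = a}) {y : Coh I → Cantor}
    (hy : Measurable y) : Frc fun p => At c p (c' p) → PtAt x p (y p) →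
      (In p (vNs JB c x) ↔ p ∈ J fun z => {n | y z ∉ c' z n}) := by
  have h0 : Frc fun p => ∀ n, In p (vMem x c n)ᶜ ↔ ¬ In p (vMem x c n) :=
    eventually_countable_forall.2 fun n => frc_compl _
  filter_upwards [ev_vMem x c, hE (fun n => (vMem x c n)ᶜ) _ (measurable_As hc hy), h0]
    with p h1 h2 h3 h4 h5
  unfold vNs
  rw [h2 (fun n => by rw [h3 n, h1 _ _ h5 h4 n])]

/-- Inclusion of the sets `N*_J`. -/
lemma subA (hE : Eval J JB) {c e : ℕ × K → RO (Coh I)} {c' e' : Coh I → ℕ → K}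
    (hc : OBName c') (he : OBName e') (h1 : Frc fun p => In p (vOmega c) → At c p (c' p))
    (h2 : Frc fun p => At e p (e' p))
    (h : ∀ y : Coh I → Cantor, Measurable y → Frc fun x =>
      (x ∈ J fun z => {n | y z ∉ c' z n}) → x ∈ J fun z => {n | y z ∉ e' z n}) :
    vOmega c ≤ vNsSub JB c e := by
  unfold vNsSub
  refine le_iInf fun x => ?_
  obtain ⟨y, hy, hxy⟩ := point_of x
  rw [le_himp_iff, le_iff]
  filter_upwards [h1, h2, h y hy, ev_vNs hE (c := c) (x := x) hc.1 hy,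
    ev_vNs hE (c := e) (x := x) he.1 hy] with p g1 g2 g3 g4 g5 g6
  have g7 : In p (vOmega c) ∧ In p (vNs JB c x) := g6
  exact (g5 g2 (hxy p)).2 (g3 ((g4 (g1 g7.1) (hxy p)).1 g7.2))

/-- Non-inclusion of the sets `N_J`. -/
lemma subB (hJ : IdealName J) (hE : Eval J JB) {c e : ℕ × K → RO (Coh I)} {c' e' : Coh I → ℕ → K}
    (hc : OBName c') (he : OBName e') (h1 : Frc fun p => At c p (c' p))
    (h2 : Frc fun p => In p (vOmega e) → At e p (e' p)) {y : Coh I → Cantor} (hy : Measurable y)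
    (hfin : ∀ x, (OmegaBar fun n => (e' x n : Set Cantor)) → {n | y x ∈ e' x n}.Finite)
    (h : Frc fun x => x ∉ J fun z => {n | y z ∈ c' z n}) :
    vOmega e ⊓ vNSub JB c e ≤ ⊥ := by
  obtain ⟨x, hxy⟩ := of_point hy
  have h3 : vNSub JB c e ≤ (vN JB c x ⇨ vN JB e x) := iInf_le _ x
  refine (inf_le_inf_left _ h3).trans ?_
  rw [le_iff]
  filter_upwards [h1, h2, h, hxy, he.2, ev_vN hE (c := c) (x := x) hc.1 hy,
    ev_vN hE (c := e) (x := x) he.1 hy, frc_himp (vN JB c x) (vN JB e x),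
    hJ.fin _ (measurable_A he.1 hy)] with p g1 g2 g3 g4 g5 g6 g7 g8 g9 g10
  have g11 : In p (vOmega e) ∧ In p (vN JB c x ⇨ vN JB e x) := g10
  exact absurd (g9 (hfin p g5)) ((g7 (g2 g11.1) g4).1 (g8.1 g11.2 ((g6 g1 g4).2 g3)))

variable {B : Type} [CompleteBooleanAlgebra B]

/-- A name for the values of a map. -/
lemma exists_value {F : (ℕ × K → B) → B} {H : (ℕ × K → B) → (ℕ × K → B) → B} (hH : Ext2 H)
    {c : ℕ × K → B} (hc : F c = ⊤) : ∃ d, vMap F H ≤ H c d ⊓ vOmega d := by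
  obtain ⟨d, hd⟩ := max_principle (F := fun d => H c d ⊓ vOmega d) (by
    intro x y
    refine le_inf ?_ ?_
    · have h1 := hH c c x y
      rw [vEq_refl, inf_top_eq] at h1
      exact le_trans (inf_le_inf_right _ inf_le_left) h1
    · exact le_trans (inf_le_inf_right _ inf_le_right) (vOmega_congr x y))
  refine ⟨d, ?_⟩
  have h1 : vMap F H ≤ (F c ⇨ ⨆ d : ℕ × K → B, H c d ⊓ vOmega d) := inf_le_left.trans (iInf_le _ c)
  rw [hc, top_himp] at h1
  exact h1.trans (iSup_le hd)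

lemma fam_self {Ξ T : Type} (c : Ξ → T → B) (ξ : Ξ) : fam c (c ξ) = ⊤ := by
  refine eq_top_iff.2 (le_trans ?_ (le_iSup _ ξ))
  rw [vEq_refl]

/-- Values of a map on a family. -/
lemma value_eq {Ξ : Type} {cB dB : Ξ → ℕ × K → B} {H : (ℕ × K → B) → (ℕ × K → B) → B}
    (hH : Ext2 H) (hd : ∀ ξ, vMap (fam cB) H ≤ H (cB ξ) (dB ξ) ⊓ vOmega (dB ξ))
    (c c' : ℕ × K → B) : vMap (fam cB) H ⊓ (fam cB c ⊓ H c c') ≤
      ⨆ ξ, vEq c' (dB ξ) ⊓ vOmega (dB ξ) := by
  unfold fam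
  rw [iSup_inf_eq, inf_iSup_eq]
  refine iSup_le fun ξ => le_iSup_of_le ξ ?_
  have h1 : vEq c (cB ξ) ⊓ H c c' ≤ H (cB ξ) c' := by
    have h2 := hH c (cB ξ) c' c'
    rw [vEq_refl, inf_top_eq, inf_comm] at h2
    exact h2
  have h2 : vMap (fam cB) H ⊓ (H (cB ξ) c' ⊓ H (cB ξ) (dB ξ)) ≤ vEq c' (dB ξ) := by
    have h3 : vMap (fam cB) H ≤
        (fam cB (cB ξ) ⊓ H (cB ξ) c' ⊓ H (cB ξ) (dB ξ) ⇨ vEq c' (dB ξ)) :=
      inf_le_right.trans ((iInf_le _ (cB ξ)).trans ((iInf_le _ c').trans (iInf_le _ (dB ξ))))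
    rw [fam_self, top_inf_eq] at h3
    exact le_himp_iff.1 h3
  refine le_inf ?_ (inf_le_left.trans ((hd ξ).trans inf_le_right))
  refine le_trans ?_ h2
  refine le_inf inf_le_left (le_inf (inf_le_right.trans h1) (inf_le_left.trans ((hd ξ).trans inf_le_left)))

lemma vIn_fam {Ξ : Type} {cB : Ξ → ℕ × K → B} (h : ∀ ξ, vOmega (cB ξ) = ⊤) :
    vIn (fam cB) = ⊤ := by
  unfold vIn
  rw [eq_top_iff]
  refine le_iInf fun c => ?_
  rw [top_le_iff, himp_eq_top_iff]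
  unfold fam
  refine iSup_le fun ξ => ?_
  have h1 := vOmega_congr (cB ξ) c
  rw [h ξ, top_inf_eq, vEq_symm] at h1
  exact h1

end PQ

open PQ

theorem phi1_of {I : Type} {κ : Cardinal} {J : (Coh I → Set ℕ) → Set (Coh I)} (hJ : IdealName J)
    (hN : NonMeagerName J) (h1 : CovNLe J κ) (h2 : AddNsGt J κ) : phi1 (RO (Coh I)) = ⊤ := by
  obtain ⟨JB, hE, hExt, hId, hNM⟩ := exists_JB hJ
  replace hNM := hNM hN
  obtain ⟨Ξ, c, hΞ, hc, hcov⟩ := h1
  choose cB hcB1 hcB2 using fun ξ => of_seq (hc ξ)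
  rw [eq_top_iff]
  refine le_trans ?_ (le_iSup _ ⟨JB, hExt⟩)
  rw [hId, hNM, inf_top_eq, top_inf_eq]
  refine le_trans ?_ (le_iSup _ ⟨fam cB, ext_fam cB⟩)
  unfold vAdd
  refine le_inf (le_inf (vIn_fam hcB1).ge ?_) ?_
  · rw [top_le_iff, compl_eq_top, ← le_bot_iff]
    refine iSup_le fun d => ?_
    obtain ⟨d', hd', hdd⟩ := seq_of d
    obtain ⟨y, hy, hfin⟩ := exists_point d' hd'.1
    obtain ⟨ξ, hξ⟩ := hcov y hy
    have h3 : (⨅ c : ℕ × K → RO (Coh I), fam cB c ⇨ vNSub JB c d) ≤ vNSub JB (cB ξ) d := by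
      refine (iInf_le _ (cB ξ)).trans ?_
      rw [fam_self, top_himp]
    exact (inf_le_inf_left _ h3).trans
      (subB hJ hE (hc ξ) hd' (hcB2 ξ) hdd hy hfin hξ)
  · refine le_iInf fun H => ?_
    rw [top_le_iff, himp_eq_top_iff]
    choose dB hdB using fun ξ => PQ.exists_value (F := fam cB) H.2 (fam_self cB ξ)
    choose d' hd' hdd using fun ξ => seq_of (dB ξ)
    obtain ⟨e, he, hsub⟩ := h2 Ξ d' hΞ hd'
    obtain ⟨eB, heB1, heB2⟩ := of_seq he
    refine le_iSup_of_le eB (le_inf (by rw [heB1]; exact le_top) ?_)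
    refine le_iInf fun a => le_iInf fun a' => ?_
    rw [le_himp_iff]
    refine (value_eq H.2 hdB a a').trans (iSup_le fun ξ => ?_)
    have h3 := subA hE (hd' ξ) he (hdd ξ) heB2 (hsub ξ)
    have h4 := vNsSub_congr hExt (dB ξ) a' eB eB
    rw [vEq_refl, inf_top_eq, vEq_symm] at h4
    refine le_trans (le_inf (inf_le_right.trans h3) inf_le_left) h4

theorem phi2_of {I : Type} {κ : Cardinal} {J : (Coh I → Set ℕ) → Set (Coh I)} (hJ : IdealName J)
    (hN : NonMeagerName J) (h1 : CofNsLe J κ) (h2 : NonNGt J κ) : phi2 (RO (Coh I)) = ⊤ := by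
  obtain ⟨JB, hE, hExt, hId, hNM⟩ := exists_JB hJ
  replace hNM := hNM hN
  obtain ⟨Ξ, d, hΞ, hd, hcof⟩ := h1
  choose dB hdB1 hdB2 using fun ξ => of_seq (hd ξ)
  rw [eq_top_iff]
  refine le_trans ?_ (le_iSup _ ⟨JB, hExt⟩)
  rw [hId, hNM, inf_top_eq, top_inf_eq]
  refine le_trans ?_ (le_iSup _ ⟨fam dB, ext_fam dB⟩)
  unfold vCof
  refine le_inf (le_inf (vIn_fam hdB1).ge ?_) ?_
  · refine le_iInf fun c => ?_
    rw [top_le_iff, himp_eq_top_iff]
    obtain ⟨c', hc', hcc⟩ := seq_of c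
    obtain ⟨ξ, hξ⟩ := hcof c' hc'
    refine le_iSup_of_le (dB ξ) (le_inf (le_top.trans (fam_self dB ξ).ge) ?_)
    exact subA hE hc' (hd ξ) hcc (hdB2 ξ) hξ
  · refine le_iInf fun H => ?_
    rw [top_le_iff, himp_eq_top_iff]
    choose hB hhB using fun ξ => PQ.exists_value (F := fam dB) H.2 (fam_self dB ξ)
    choose h' hh' hhh using fun ξ => seq_of (hB ξ)
    choose y hy hfin using fun ξ => exists_point (h' ξ) (hh' ξ).1
    obtain ⟨c, hc, hcy⟩ := h2 Ξ y hΞ hy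
    obtain ⟨cB, hcB1, hcB2⟩ := of_seq hc
    refine le_iSup_of_le cB (le_inf (by rw [hcB1]; exact le_top) ?_)
    refine le_iInf fun a => le_iInf fun a' => ?_
    rw [le_himp_iff]
    refine (value_eq H.2 hhB a a').trans (iSup_le fun ξ => ?_)
    have h3 := subB hJ hE hc (hh' ξ) hcB2 (hhh ξ) (hy ξ) (hfin ξ) (hcy ξ)
    have h4 := vNSub_congr hExt cB cB a' (hB ξ)
    rw [vEq_refl, inf_top_eq] at h4
    rw [le_compl_iff_disjoint_right, disjoint_iff_inf_le]
    refine le_trans (le_inf (inf_le_left.trans inf_le_right) (le_trans (le_inf inf_le_right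
      (inf_le_left.trans inf_le_left)) h4)) h3

end Pool.Agent.Sc72
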