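import Pool.Agent.Nm65.Defs

/-!
MP_50671f: the two questions as statements of Boolean-valued third-order arithmetic
(D. Scott, 1967).  `B` is a complete Boolean algebra.  For a set `T` of the ground model a
subset of `T` in the Boolean extension is a function `T → B`; a set of such objects is a
function `(T → B) → B` which respects the Boolean-valued equality; the truth values of formulas
are computed with infima and suprema.  For `B = Prop` all this is the usual meaning.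
-/

namespace Pool.Agent.Sc72

open Set Pool.Agent.Nm65

/-- The clopen subsets of the Cantor space (of the ground model, they serve as codes of the
clopen subsets of the Cantor space of the Boolean extension). -/
abbrev K : Type := TopologicalSpace.Clopens Cantor

/-- The basic clopen set of a finite binary sequence. -/
def cylL (s : List Bool) : Set Cantor := {x | ∀ i : Fin s.length, x i = s.get i}

variable {B : Type*} [CompleteBooleanAlgebra B]

/-- Truth value of `x = y`, for subsets `x`, `y` of `T`. -/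
def vEq {T : Type*} (x y : T → B) : B := ⨅ t, (x t ⇨ y t) ⊓ (y t ⇨ x t)

/-- Sets of subsets of `T`: functions respecting equality. -/
def Ext {T : Type*} (F : (T → B) → B) : Prop := ∀ x y, F x ⊓ vEq x y ≤ F y

/-- Binary relations between subsets of `T`: functions respecting equality. -/
def Ext2 {T : Type*} (H : (T → B) → (T → B) → B) : Prop :=
  ∀ x x' y y', H x y ⊓ vEq x x' ⊓ vEq y y' ≤ H x' y'

/-- Truth value of: `J` is an ideal on the natural numbers (closed under subsets and finite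
unions, containing the finite sets, not containing the set of all natural numbers). -/
def vIdeal (J : (ℕ → B) → B) : B :=
  (⨅ x : ℕ → B, ⨅ y : ℕ → B, J x ⊓ (⨅ n, y n ⇨ x n) ⇨ J y) ⊓
  (⨅ x : ℕ → B, ⨅ y : ℕ → B, J x ⊓ J y ⇨ J (fun n => x n ⊔ y n)) ⊓
  (⨅ x : ℕ → B, (⨆ m : ℕ, ⨅ n : ℕ, ⨅ _ : m ≤ n, (x n)ᶜ) ⇨ J x) ⊓
  (J fun _ => ⊤)ᶜ

/-- Truth value of: the finite sequence `s` is an initial segment of (the characteristic
function of) `x`. -/
def vInit (s : List Bool) (x : ℕ → B) : B :=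
  ⨅ i : Fin s.length, if s.get i = true then x i else (x i)ᶜ

/-- Truth value of: `J` is not meager, that is, `J` meets the intersection of every sequence of
dense open subsets of the Cantor space; `D` is a sequence of sets of finite sequences, its
`k`-th member generates the `k`-th open set. -/
def vNonMeager (J : (ℕ → B) → B) : B :=
  ⨅ D : ℕ × List Bool → B, (⨅ k : ℕ, ⨅ t : List Bool, ⨆ u : List Bool, D (k, t ++ u)) ⇨
    ⨆ x : ℕ → B, J x ⊓ ⨅ k : ℕ, ⨆ s : List Bool, D (k, s) ⊓ vInit s x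

/-- Truth value of: `c` is (the graph of) a sequence of clopen sets. -/
def vFun (c : ℕ × K → B) : B :=
  (⨅ n : ℕ, ⨆ a : K, c (n, a)) ⊓
  (⨅ n : ℕ, ⨅ a : K, ⨅ b : K, ⨅ _ : a ≠ b, (c (n, a) ⊓ c (n, b))ᶜ)

/-- Truth value of: for every `k` there is `m` such that, for every `l`, the union of the clopen
sets with numbers `m ≤ n < l` has measure at most `2 ^ (-k)`. -/
def vNull (c : ℕ × K → B) : B :=
  ⨅ k : ℕ, ⨆ m : ℕ, ⨅ l : ℕ, ⨆ f : Fin l → K,
    ⨆ _ : mu (⋃ n : Fin l, ⋃ _ : m ≤ n, (f n : Set Cantor)) ≤ (1 / 2) ^ k,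
      ⨅ n : Fin l, c (n, f n)

/-- Truth value of: `c` is in `OmegaBar`. -/
def vOmega (c : ℕ × K → B) : B := vFun c ⊓ vNull c

/-- Truth value of: `x` is in the `n`-th set `a` of the sequence `c`, that is, `a` contains the
basic clopen set of an initial segment of `x`. -/
def vMem (x : ℕ → B) (c : ℕ × K → B) (n : ℕ) : B :=
  ⨆ a : K, c (n, a) ⊓ ⨆ s : List Bool, ⨆ _ : cylL s ⊆ a, vInit s x

/-- Truth value of: `x` is in `N_J(c)`. -/
def vN (J : (ℕ → B) → B) (c : ℕ × K → B) (x : ℕ → B) : B := (J fun n => vMem x c n)ᶜ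

/-- Truth value of: `x` is in `N*_J(c)`. -/
def vNs (J : (ℕ → B) → B) (c : ℕ × K → B) (x : ℕ → B) : B := J fun n => (vMem x c n)ᶜ

/-- Truth value of: `N_J(c)` is contained in `N_J(d)`. -/
def vNSub (J : (ℕ → B) → B) (c d : ℕ × K → B) : B := ⨅ x : ℕ → B, vN J c x ⇨ vN J d x

/-- Truth value of: `N*_J(c)` is contained in `N*_J(d)`. -/
def vNsSub (J : (ℕ → B) → B) (c d : ℕ × K → B) : B := ⨅ x : ℕ → B, vNs J c x ⇨ vNs J d x

/-- Truth value of: all members of `F` are in `OmegaBar`. -/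
def vIn (F : (ℕ × K → B) → B) : B := ⨅ c : ℕ × K → B, F c ⇨ vOmega c

/-- Truth value of: `H` is a map from `F` to `OmegaBar`. -/
def vMap (F : (ℕ × K → B) → B) (H : (ℕ × K → B) → (ℕ × K → B) → B) : B :=
  (⨅ c : ℕ × K → B, F c ⇨ ⨆ d : ℕ × K → B, H c d ⊓ vOmega d) ⊓
  (⨅ c : ℕ × K → B, ⨅ d : ℕ × K → B, ⨅ d' : ℕ × K → B, F c ⊓ H c d ⊓ H c d' ⇨ vEq d d')

/-- Truth value of: `add (N_J) ≤ |F| < add (N*_J)`.  No `N_J(d)` contains all `N_J(c)`, `c` in
`F`; and for every map `H` from `F` to `OmegaBar` some `N*_J(d)` contains all `N*_J(H(c))`. -/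
def vAdd (J : (ℕ → B) → B) (F : (ℕ × K → B) → B) : B :=
  vIn F ⊓ (⨆ d : ℕ × K → B, vOmega d ⊓ ⨅ c : ℕ × K → B, F c ⇨ vNSub J c d)ᶜ ⊓
  ⨅ H : {H : (ℕ × K → B) → (ℕ × K → B) → B // Ext2 H}, vMap F H.1 ⇨
    ⨆ d : ℕ × K → B, vOmega d ⊓ ⨅ c : ℕ × K → B, ⨅ c' : ℕ × K → B, F c ⊓ H.1 c c' ⇨ vNsSub J c' d

/-- Truth value of: `cof (N*_J) ≤ |F| < cof (N_J)`.  Every `N*_J(c)` is contained in some
`N*_J(d)`, `d` in `F`; and for every map `H` from `F` to `OmegaBar` some `N_J(c)` is contained in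
no `N_J(H(d))`. -/
def vCof (J : (ℕ → B) → B) (F : (ℕ × K → B) → B) : B :=
  vIn F ⊓ (⨅ c : ℕ × K → B, vOmega c ⇨ ⨆ d : ℕ × K → B, F d ⊓ vNsSub J c d) ⊓
  ⨅ H : {H : (ℕ × K → B) → (ℕ × K → B) → B // Ext2 H}, vMap F H.1 ⇨
    ⨆ c : ℕ × K → B, vOmega c ⊓ ⨅ d : ℕ × K → B, ⨅ d' : ℕ × K → B, F d ⊓ H.1 d d' ⇨ (vNSub J c d')ᶜ

variable (B)

/-- Truth value of: there is a non-meager ideal `J` with `add (N_J) < add (N*_J)`. -/
def phi1 : B :=
  ⨆ J : {J : (ℕ → B) → B // Ext J}, vIdeal J.1 ⊓ vNonMeager J.1 ⊓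
    ⨆ F : {F : (ℕ × K → B) → B // Ext F}, vAdd J.1 F.1

/-- Truth value of: there is a non-meager ideal `J` with `cof (N*_J) < cof (N_J)`. -/
def phi2 : B :=
  ⨆ J : {J : (ℕ → B) → B // Ext J}, vIdeal J.1 ⊓ vNonMeager J.1 ⊓
    ⨆ F : {F : (ℕ × K → B) → B // Ext F}, vCof J.1 F.1

end Pool.Agent.Sc72
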