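import Pool.Agent.Sc72.Defs

/-!
Extensional functions of Boolean-valued sets, mixing, and fullness: in a complete Boolean algebra
the supremum of an extensional function is attained.
-/

namespace Pool.Agent.Sc72

open Set Pool.Agent.Nm65

variable {B : Type*} [CompleteBooleanAlgebra B] {T S : Type*}

/-! ### Boolean-valued equality -/

theorem vEq_le_himp (x y : T → B) (t : T) : vEq x y ≤ x t ⇨ y t :=
  (iInf_le _ t).trans inf_le_left

theorem vEq_comm (x y : T → B) : vEq x y = vEq y x := by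
  unfold vEq
  exact iInf_congr fun t => inf_comm _ _

theorem inf_vEq_le (x y : T → B) (t : T) : x t ⊓ vEq x y ≤ y t := by
  have h := vEq_le_himp x y t
  rw [le_himp_iff] at h
  rw [inf_comm]
  exact h

theorem le_vEq {b : B} {x y : T → B} :
    b ≤ vEq x y ↔ (∀ t, b ⊓ x t ≤ y t) ∧ ∀ t, b ⊓ y t ≤ x t := by
  unfold vEq
  rw [le_iInf_iff]
  constructor
  · intro h
    exact ⟨fun t => le_himp_iff.1 ((h t).trans inf_le_left),
      fun t => le_himp_iff.1 ((h t).trans inf_le_right)⟩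
  · intro h t
    exact le_inf (le_himp_iff.2 (h.1 t)) (le_himp_iff.2 (h.2 t))

theorem vEq_self (x : T → B) : vEq x x = ⊤ := by
  apply top_unique
  rw [le_vEq]
  exact ⟨fun t => inf_le_right, fun t => inf_le_right⟩

theorem vEq_trans (x y z : T → B) : vEq x y ⊓ vEq y z ≤ vEq x z := by
  rw [le_vEq]
  constructor
  · intro t
    have h1 := inf_vEq_le x y t
    have h2 := inf_vEq_le y z t
    calc vEq x y ⊓ vEq y z ⊓ x t = (x t ⊓ vEq x y) ⊓ vEq y z := by
          rw [inf_comm (vEq x y ⊓ vEq y z), ← inf_assoc]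
      _ ≤ y t ⊓ vEq y z := inf_le_inf_right _ h1
      _ ≤ z t := h2
  · intro t
    have h1 := inf_vEq_le z y t
    have h2 := inf_vEq_le y x t
    rw [vEq_comm z y] at h1
    rw [vEq_comm y x] at h2
    calc vEq x y ⊓ vEq y z ⊓ z t = (z t ⊓ vEq y z) ⊓ vEq x y := by
          rw [inf_comm (vEq x y), inf_comm, inf_assoc]
      _ ≤ y t ⊓ vEq x y := inf_le_inf_right _ h1
      _ ≤ x t := h2

/-! ### extensional functions -/

theorem Ext.const (b : B) : Ext (fun _ : T → B => b) := fun _ _ => inf_le_left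

theorem Ext.coord (t : T) : Ext (fun x : T → B => x t) := fun x y => inf_vEq_le x y t

theorem Ext.inf {F G : (T → B) → B} (hF : Ext F) (hG : Ext G) : Ext (fun x => F x ⊓ G x) := by
  intro x y
  refine le_inf ((inf_le_inf_right _ inf_le_left).trans (hF x y))
    ((inf_le_inf_right _ inf_le_right).trans (hG x y))

theorem Ext.sup {F G : (T → B) → B} (hF : Ext F) (hG : Ext G) : Ext (fun x => F x ⊔ G x) := by
  intro x y
  show (F x ⊔ G x) ⊓ vEq x y ≤ F y ⊔ G y
  rw [inf_sup_right]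
  exact sup_le_sup (hF x y) (hG x y)

theorem Ext.himp {F G : (T → B) → B} (hF : Ext F) (hG : Ext G) : Ext (fun x => F x ⇨ G x) := by
  intro x y
  show (F x ⇨ G x) ⊓ vEq x y ≤ F y ⇨ G y
  rw [le_himp_iff]
  have h1 := hF y x
  rw [vEq_comm] at h1
  have h2 := hG x y
  calc (F x ⇨ G x) ⊓ vEq x y ⊓ F y
      ≤ ((F x ⇨ G x) ⊓ (F y ⊓ vEq x y)) ⊓ vEq x y := by
        refine le_inf (le_inf ?_ (le_inf ?_ ?_)) ?_
        · exact inf_le_left.trans inf_le_left
        · exact inf_le_right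
        · exact inf_le_left.trans inf_le_right
        · exact inf_le_left.trans inf_le_right
    _ ≤ ((F x ⇨ G x) ⊓ F x) ⊓ vEq x y := inf_le_inf_right _ (inf_le_inf_left _ h1)
    _ ≤ G x ⊓ vEq x y := inf_le_inf_right _ himp_inf_le
    _ ≤ G y := h2

theorem Ext.compl {F : (T → B) → B} (hF : Ext F) : Ext (fun x => (F x)ᶜ) := by
  have h := hF.himp (Ext.const (⊥ : B))
  intro x y
  have h1 := h x y
  simpa only [himp_bot] using h1

theorem Ext.iInf {ι : Sort*} {F : ι → (T → B) → B} (hF : ∀ i, Ext (F i)) :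
    Ext (fun x => ⨅ i, F i x) := by
  intro x y
  exact le_iInf fun i => (inf_le_inf_right _ (iInf_le _ i)).trans (hF i x y)

theorem Ext.iSup {ι : Sort*} {F : ι → (T → B) → B} (hF : ∀ i, Ext (F i)) :
    Ext (fun x => ⨆ i, F i x) := by
  intro x y
  show (⨆ i, F i x) ⊓ vEq x y ≤ ⨆ i, F i y
  rw [iSup_inf_eq]
  exact iSup_mono fun i => hF i x y

theorem Ext.ite {p : Prop} [Decidable p] {F G : (T → B) → B} (hF : Ext F) (hG : Ext G) :
    Ext (fun x => if p then F x else G x) := by
  intro x y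
  by_cases h : p
  · simpa only [if_pos h] using hF x y
  · simpa only [if_neg h] using hG x y

/-- A map between sets of names respects equality when its coordinates are extensional. -/
theorem vEq_map {f : (T → B) → (S → B)} (hf : ∀ s, Ext (fun x => f x s)) (x y : T → B) :
    vEq x y ≤ vEq (f x) (f y) := by
  rw [le_vEq]
  constructor
  · intro s
    rw [inf_comm]
    exact hf s x y
  · intro s
    rw [inf_comm, vEq_comm]
    exact hf s y x

theorem Ext.comp {G : (S → B) → B} (hG : Ext G) {f : (T → B) → (S → B)}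
    (hf : ∀ s, Ext (fun x => f x s)) : Ext (fun x => G (f x)) := fun x y =>
  (inf_le_inf_left _ (vEq_map hf x y)).trans (hG _ _)

theorem Ext.vEq_right (x : T → B) : Ext (fun y => vEq x y) := fun y z => vEq_trans x y z

theorem Ext.vEq_left (y : T → B) : Ext (fun x => vEq x y) := by
  intro x z
  show vEq x y ⊓ vEq x z ≤ vEq z y
  rw [vEq_comm x y, inf_comm, vEq_comm x z, vEq_comm y x]
  exact vEq_trans z x y

theorem Ext2.right {H : (T → B) → (T → B) → B} (hH : Ext2 H) (x : T → B) : Ext (H x) := by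
  intro y y'
  have h := hH x x y y'
  rwa [vEq_self, inf_top_eq] at h

theorem Ext2.left {H : (T → B) → (T → B) → B} (hH : Ext2 H) (y : T → B) :
    Ext (fun x => H x y) := by
  intro x x'
  have h := hH x x' y y
  rwa [vEq_self, inf_top_eq] at h

theorem Ext2.mk {H : (T → B) → (T → B) → B} (h1 : ∀ x, Ext (H x))
    (h2 : ∀ y, Ext (fun x => H x y)) : Ext2 H := by
  intro x x' y y'
  calc H x y ⊓ vEq x x' ⊓ vEq y y' ≤ H x' y ⊓ vEq y y' := inf_le_inf_right _ (h2 y x x')
    _ ≤ H x' y' := h1 x' y y'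

/-! ### the formulas are extensional -/

theorem ext_vInit (s : List Bool) : Ext (fun x : ℕ → B => vInit s x) :=
  Ext.iInf fun i => Ext.ite (Ext.coord (i : ℕ)) (Ext.coord (i : ℕ)).compl

theorem ext_vMem_left (c : ℕ × K → B) (n : ℕ) : Ext (fun x : ℕ → B => vMem x c n) :=
  Ext.iSup fun _ => (Ext.const _).inf (Ext.iSup fun s => Ext.iSup fun _ => ext_vInit s)

theorem ext_vMem_right (x : ℕ → B) (n : ℕ) : Ext (fun c : ℕ × K → B => vMem x c n) :=
  Ext.iSup fun a => (Ext.coord (n, a)).inf (Ext.const _)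

theorem ext_vFun : Ext (fun c : ℕ × K → B => vFun c) :=
  (Ext.iInf fun n => Ext.iSup fun a => Ext.coord (n, a)).inf
    (Ext.iInf fun n => Ext.iInf fun a => Ext.iInf fun b => Ext.iInf fun _ =>
      ((Ext.coord (n, a)).inf (Ext.coord (n, b))).compl)

theorem ext_vNull : Ext (fun c : ℕ × K → B => vNull c) :=
  Ext.iInf fun _ => Ext.iSup fun _ => Ext.iInf fun _ => Ext.iSup fun f => Ext.iSup fun _ =>
    Ext.iInf fun n => Ext.coord ((n : ℕ), f n)

theorem ext_vOmega : Ext (fun c : ℕ × K → B => vOmega c) := ext_vFun.inf ext_vNull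

theorem ext_vN_right {J : (ℕ → B) → B} (hJ : Ext J) (c : ℕ × K → B) :
    Ext (fun x : ℕ → B => vN J c x) := (hJ.comp fun n => ext_vMem_left c n).compl

theorem ext_vN_left {J : (ℕ → B) → B} (hJ : Ext J) (x : ℕ → B) :
    Ext (fun c : ℕ × K → B => vN J c x) := (hJ.comp fun n => ext_vMem_right x n).compl

theorem ext_vNs_right {J : (ℕ → B) → B} (hJ : Ext J) (c : ℕ × K → B) :
    Ext (fun x : ℕ → B => vNs J c x) := hJ.comp fun n => (ext_vMem_left c n).compl

theorem ext_vNs_left {J : (ℕ → B) → B} (hJ : Ext J) (x : ℕ → B) :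
    Ext (fun c : ℕ × K → B => vNs J c x) := hJ.comp fun n => (ext_vMem_right x n).compl

theorem ext_vNSub_left {J : (ℕ → B) → B} (hJ : Ext J) (d : ℕ × K → B) :
    Ext (fun c : ℕ × K → B => vNSub J c d) :=
  Ext.iInf fun x => (ext_vN_left hJ x).himp (Ext.const _)

theorem ext_vNSub_right {J : (ℕ → B) → B} (hJ : Ext J) (c : ℕ × K → B) :
    Ext (fun d : ℕ × K → B => vNSub J c d) :=
  Ext.iInf fun x => (Ext.const _).himp (ext_vN_left hJ x)

theorem ext_vNsSub_left {J : (ℕ → B) → B} (hJ : Ext J) (d : ℕ × K → B) :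
    Ext (fun c : ℕ × K → B => vNsSub J c d) :=
  Ext.iInf fun x => (ext_vNs_left hJ x).himp (Ext.const _)

theorem ext_vNsSub_right {J : (ℕ → B) → B} (hJ : Ext J) (c : ℕ × K → B) :
    Ext (fun d : ℕ × K → B => vNsSub J c d) :=
  Ext.iInf fun x => (Ext.const _).himp (ext_vNs_left hJ x)

/-! ### mixing and fullness -/

/-- Mixing along disjoint elements. -/
theorem mix {ι : Type*} (a : ι → B) (ha : ∀ i j, i ≠ j → a i ⊓ a j = ⊥) (x : ι → T → B) :
    ∃ y : T → B, ∀ i, a i ≤ vEq (x i) y := by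
  refine ⟨fun t => ⨆ i, a i ⊓ x i t, fun i => ?_⟩
  rw [le_vEq]
  constructor
  · intro t
    exact le_iSup (fun i => a i ⊓ x i t) i
  · intro t
    show a i ⊓ (⨆ j, a j ⊓ x j t) ≤ x i t
    rw [inf_iSup_eq]
    refine iSup_le fun j => ?_
    by_cases h : i = j
    · subst h
      exact inf_le_right.trans inf_le_right
    · rw [← inf_assoc, ha i j h, bot_inf_eq]
      exact bot_le

/-- Mixing of two names. -/
theorem mix_two (b : B) (x y : T → B) : ∃ z : T → B, b ≤ vEq x z ∧ bᶜ ≤ vEq y z := by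
  obtain ⟨z, hz⟩ := mix (fun i : Bool => if i then b else bᶜ) (by
    intro i j hij
    cases i <;> cases j <;> simp_all) (fun i : Bool => if i then x else y)
  exact ⟨z, by simpa using hz true, by simpa using hz false⟩

/-- The maximum principle. -/
theorem exists_max {G : (T → B) → B} (hG : Ext G) : ∃ y, G y = ⨆ x, G x := by
  classical
  let r : (T → B) → (T → B) → Prop := WellOrderingRel
  have hwf : WellFounded r := WellOrderingRel.isWellOrder.wf
  let s : (T → B) → B := fun x => ⨆ z : {z // r z x}, G z.1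
  let a : (T → B) → B := fun x => G x ⊓ (s x)ᶜ
  have ha : ∀ x z, x ≠ z → a x ⊓ a z = ⊥ := by
    have key : ∀ x z, r x z → a x ⊓ a z = ⊥ := by
      intro x z h
      have h1 : a x ≤ s z := inf_le_left.trans (le_iSup (fun w : {w // r w z} => G w.1) ⟨x, h⟩)
      have h2 : a z ≤ (s z)ᶜ := inf_le_right
      apply bot_unique
      calc a x ⊓ a z ≤ s z ⊓ (s z)ᶜ := inf_le_inf h1 h2
        _ = ⊥ := inf_compl_self _
    intro x z hxz
    rcases trichotomous_of WellOrderingRel x z with h | h | h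
    · exact key x z h
    · exact absurd h hxz
    · rw [inf_comm]
      exact key z x h
  have hsup : ∀ x, G x ≤ ⨆ z, a z := by
    intro x
    induction x using hwf.induction with
    | _ x ih =>
      have h1 : s x ≤ ⨆ z, a z := iSup_le fun z => ih z.1 z.2
      calc G x = (G x ⊓ s x) ⊔ (G x ⊓ (s x)ᶜ) := by rw [← inf_sup_left, sup_compl_eq_top, inf_top_eq]
        _ ≤ ⨆ z, a z := sup_le (inf_le_right.trans h1) (le_iSup a x)
  obtain ⟨y, hy⟩ := mix a ha (fun x => x)
  refine ⟨y, le_antisymm (le_iSup G y) (iSup_le fun x => (hsup x).trans (iSup_le fun z => ?_))⟩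
  exact (le_inf inf_le_left (hy z)).trans (hG z y)

/-- Fullness with a total witness for a second extensional condition. -/
theorem exists_max_total {G P : (T → B) → B} (hG : Ext G) (hP : Ext P) (d0 : T → B)
    (h0 : P d0 = ⊤) : ∃ y, P y = ⊤ ∧ ⨆ d, G d ⊓ P d ≤ G y := by
  obtain ⟨y1, h1⟩ := exists_max (hG.inf hP)
  obtain ⟨z, hz1, hz2⟩ := mix_two (G y1 ⊓ P y1) y1 d0
  refine ⟨z, ?_, ?_⟩
  · apply top_unique
    have e1 : G y1 ⊓ P y1 ≤ P z := (le_inf inf_le_right hz1).trans (hP y1 z)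
    have e2 : (G y1 ⊓ P y1)ᶜ ≤ P z := (le_inf (by rw [h0]; exact le_top) hz2).trans (hP d0 z)
    calc (⊤ : B) = (G y1 ⊓ P y1) ⊔ (G y1 ⊓ P y1)ᶜ := sup_compl_eq_top.symm
      _ ≤ P z := sup_le e1 e2
  · rw [← h1]
    exact (le_inf inf_le_left hz1).trans (hG y1 z)

/-! ### a default sequence of clopen sets -/

open Classical in
/-- The sequence of empty clopen sets. -/
noncomputable def d0 : ℕ × K → B := fun p => if p.2 = (⊥ : K) then ⊤ else ⊥

theorem vOmega_d0 : vOmega (d0 : ℕ × K → B) = ⊤ := by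
  unfold vOmega
  rw [inf_eq_top_iff]
  constructor
  · unfold vFun
    rw [inf_eq_top_iff]
    constructor
    · rw [iInf_eq_top]
      intro n
      apply top_unique
      refine le_trans ?_ (le_iSup _ (⊥ : K))
      simp [d0]
    · simp only [iInf_eq_top]
      intro n a b hab
      rw [compl_eq_top]
      unfold d0
      by_cases h1 : a = (⊥ : K)
      · by_cases h2 : b = (⊥ : K)
        · exact absurd (h1.trans h2.symm) hab
        · simp [h2]
      · simp [h1]
  · unfold vNull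
    rw [iInf_eq_top]
    intro k
    apply top_unique
    refine le_trans ?_ (le_iSup _ 0)
    refine le_iInf fun l => ?_
    refine le_trans ?_ (le_iSup _ (fun _ => (⊥ : K)))
    have hmu : mu (⋃ n : Fin l, ⋃ _ : 0 ≤ (n : ℕ), ((⊥ : K) : Set Cantor)) ≤ (1 / 2) ^ k := by
      have : (⋃ n : Fin l, ⋃ _ : 0 ≤ (n : ℕ), ((⊥ : K) : Set Cantor)) = ∅ := by
        simp
      rw [this]
      simp
    refine le_trans ?_ (le_iSup _ hmu)
    refine le_iInf fun n => ?_
    simp [d0]

/-- The values of a Boolean-valued map can be chosen as total names of members of `OmegaBar`. -/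
theorem exists_value {F : (ℕ × K → B) → B} {H : (ℕ × K → B) → (ℕ × K → B) → B} (hH : Ext2 H)
    (c : ℕ × K → B) : ∃ d : ℕ × K → B, vOmega d = ⊤ ∧ vMap F H ⊓ F c ≤ H c d := by
  obtain ⟨d, h1, h2⟩ := exists_max_total (hH.right c) ext_vOmega d0 vOmega_d0
  refine ⟨d, h1, le_trans ?_ h2⟩
  have h3 : vMap F H ≤ F c ⇨ ⨆ d : ℕ × K → B, H c d ⊓ vOmega d :=
    inf_le_left.trans (iInf_le _ c)
  rw [← le_himp_iff]
  exact h3

/-- Two values of a Boolean-valued map are equal. -/
theorem value_unique (F : (ℕ × K → B) → B) (H : (ℕ × K → B) → (ℕ × K → B) → B)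
    (c d d' : ℕ × K → B) : vMap F H ⊓ (F c ⊓ H c d ⊓ H c d') ≤ vEq d d' := by
  have h3 : vMap F H ≤ F c ⊓ H c d ⊓ H c d' ⇨ vEq d d' :=
    inf_le_right.trans ((iInf_le _ c).trans ((iInf_le _ d).trans (iInf_le _ d')))
  rw [← le_himp_iff]
  exact h3

end Pool.Agent.Sc72
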