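import Pool.Agent.Fo65.RO
import Pool.Agent.Sc72.Defs

/-!
MP_50671f, Scott form: the countable chain condition of the space of families of reals; regular
open sets are measurable for the product sigma-algebra; names.
-/

namespace Pool.Agent.Sc72

open MeasureTheory Set Filter TopologicalSpace Cardinal Pool.Agent.Nm65 Pool.Agent.Fo65

variable {I : Type}

/-! ### A positive product measure -/

/-- A probability measure on the natural numbers with full support. -/
noncomputable def nu : Measure ℕ :=
  Measure.sum fun n : ℕ => ((1 / 2 : ENNReal) ^ (n + 1)) • Measure.dirac n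

instance : IsProbabilityMeasure nu := by
  constructor
  unfold nu
  rw [Measure.sum_apply _ MeasurableSet.univ]
  simp only [Measure.smul_apply, measure_univ, smul_eq_mul, mul_one]
  rw [ENNReal.tsum_geometric_add_one, one_div, ENNReal.one_sub_inv_two, inv_inv,
    ENNReal.inv_mul_cancel (by simp) (by simp)]

lemma nu_pos (k : ℕ) : 0 < nu {k} := by
  unfold nu
  rw [Measure.sum_apply _ (measurableSet_singleton k)]
  refine lt_of_lt_of_le ?_ (ENNReal.le_tsum k)
  simp only [Measure.smul_apply, smul_eq_mul]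
  rw [Measure.dirac_apply' _ (measurableSet_singleton k)]
  simp only [indicator_of_mem (mem_singleton k), Pi.one_apply, mul_one]
  exact ENNReal.pow_pos (by simp) _

/-- The product measure. -/
noncomputable def nuI (I : Type) : Measure (Coh I) :=
  Measure.infinitePi fun _ : I => Measure.infinitePi fun _ : ℕ => nu

instance : IsProbabilityMeasure (nuI I) := by unfold nuI; infer_instance

lemma measurableSet_cyl (F : Finset (I × ℕ)) (x : Coh I) : MeasurableSet (cyl F x) := by
  have : cyl F x = ⋂ p ∈ F, {y : Coh I | y p.1 p.2 = x p.1 p.2} := by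
    ext y; simp [cyl]
  rw [this]
  refine Finset.measurableSet_biInter F fun p _ => ?_
  have hc : Measurable fun y : Coh I => y p.1 p.2 :=
    (measurable_pi_apply p.2).comp (measurable_pi_apply p.1)
  exact hc (measurableSet_singleton (x p.1 p.2))

lemma nuI_cyl_pos (F : Finset (I × ℕ)) (x : Coh I) : 0 < nuI I (cyl F x) := by
  classical
  set S := F.image Prod.fst
  set T := F.image Prod.snd
  have hsub : Set.pi (S : Set I) (fun i => Set.pi (T : Set ℕ) fun n => {x i n}) ⊆ cyl F x := by
    intro y hy p hp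
    exact hy p.1 (Finset.mem_coe.2 (Finset.mem_image.2 ⟨p, hp, rfl⟩)) p.2
      (Finset.mem_coe.2 (Finset.mem_image.2 ⟨p, hp, rfl⟩))
  refine lt_of_lt_of_le ?_ (measure_mono hsub)
  unfold nuI
  rw [Measure.infinitePi_pi _ (fun i _ => MeasurableSet.pi T.countable_toSet
    fun n _ => measurableSet_singleton _)]
  refine pos_iff_ne_zero.2 (Finset.prod_ne_zero_iff.2 fun i _ => ?_)
  rw [Measure.infinitePi_pi _ (fun n _ => measurableSet_singleton _)]
  exact Finset.prod_ne_zero_iff.2 fun n _ => (nu_pos _).ne'

/-- The countable chain condition. -/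
theorem ccc {S : Set (Set (Coh I))} (hS : ∀ s ∈ S, ∃ F x, s = cyl F x)
    (hd : S.PairwiseDisjoint id) : S.Countable := by
  have h := Measure.countable_meas_pos_of_disjoint_iUnion (μ := nuI I) (As := fun s : S => (s : Set (Coh I)))
    (fun s => by
      obtain ⟨F, x, hs⟩ := hS s.1 s.2
      rw [hs]
      exact measurableSet_cyl F x)
    (fun s t hst => hd s.2 t.2 fun h => hst (Subtype.ext h))
  have hu : {s : S | 0 < nuI I (s : Set (Coh I))} = Set.univ := by
    refine Set.eq_univ_of_forall fun s => ?_
    obtain ⟨F, x, hs⟩ := hS s.1 s.2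
    show 0 < nuI I s.1
    rw [hs]
    exact nuI_cyl_pos F x
  rw [hu] at h
  exact Set.countable_coe_iff.1 (Set.countable_univ_iff.1 h)

/-- A maximal disjoint family of cylinders inside a set. -/
lemma exists_max_family (U : Set (Coh I)) : ∃ S : Set (Set (Coh I)),
    (∀ s ∈ S, (∃ F x, s = cyl F x) ∧ s ⊆ U) ∧ S.PairwiseDisjoint id ∧
      ∀ F x, cyl F x ⊆ U → ∃ s ∈ S, (s ∩ cyl F x).Nonempty := by
  obtain ⟨S, hS⟩ := zorn_subset {S : Set (Set (Coh I)) |
      (∀ s ∈ S, (∃ F x, s = cyl F x) ∧ s ⊆ U) ∧ S.PairwiseDisjoint id} (by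
    intro c hc hchain
    refine ⟨⋃₀ c, ⟨?_, ?_⟩, fun s hs => subset_sUnion_of_mem hs⟩
    · rintro s ⟨S, hS, hs⟩
      exact (hc hS).1 s hs
    · exact (pairwiseDisjoint_sUnion hchain.directedOn).2 fun S hS => (hc hS).2)
  refine ⟨S, hS.1.1, hS.1.2, fun F x hFx => ?_⟩
  by_contra hcon
  push Not at hcon
  have h1 : cyl F x ∉ S := by
    intro h
    have := hcon _ h
    rw [Set.inter_self] at this
    exact (this ▸ mem_cyl_self F x : x ∈ (∅ : Set (Coh I)))
  have h2 : insert (cyl F x) S ∈ {S : Set (Set (Coh I)) |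
      (∀ s ∈ S, (∃ F x, s = cyl F x) ∧ s ⊆ U) ∧ S.PairwiseDisjoint id} := by
    refine ⟨?_, ?_⟩
    · rintro s (rfl | hs)
      · exact ⟨⟨F, x, rfl⟩, hFx⟩
      · exact hS.1.1 s hs
    · refine hS.1.2.insert fun s hs _ => ?_
      have := hcon s hs
      rw [Set.inter_comm] at this
      exact Set.disjoint_iff_inter_eq_empty.2 this
  exact h1 (hS.2 h2 (subset_insert _ _) (mem_insert _ _))

/-- Cylinders depend on finitely many values. -/
lemma measurableSet_cyl_sub (F : Finset (I × ℕ)) (E : Set (Coh I)) :
    MeasurableSet {p : Coh I | cyl F p ⊆ E} := by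
  let r : Coh I → (F → ℕ) := fun p q => p q.1.1 q.1.2
  have hr : Measurable r := by
    rw [measurable_pi_iff]
    intro q
    exact (measurable_pi_apply q.1.2).comp (measurable_pi_apply q.1.1)
  have h : {p : Coh I | cyl F p ⊆ E} = r ⁻¹' {v | ∃ p, r p = v ∧ cyl F p ⊆ E} := by
    ext p
    simp only [mem_ofPred_eq, mem_preimage]
    constructor
    · intro h
      exact ⟨p, rfl, h⟩
    · rintro ⟨q, hq, hsub⟩ y hy
      refine hsub fun a ha => ?_
      have h1 : r q ⟨a, ha⟩ = r p ⟨a, ha⟩ := congrFun hq _
      rw [hy a ha]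
      exact h1.symm
  rw [h]
  exact hr (Set.to_countable _).measurableSet

/-- The interior of the closure of a set with countable support is measurable. -/
lemma measurableSet_interior_closure {V : Set (Coh I)} {C : Set I} (hC : C.Countable)
    (hV : DependsOn (fun x => x ∈ V) C) : MeasurableSet (interior (closure V)) := by
  classical
  have hCc : Countable C := hC.to_subtype
  have hmeet : ∀ {y : Coh I}, y ∈ closure V ↔ ∀ G : Finset (I × ℕ), ∃ z ∈ cyl G y, z ∈ V := by
    intro y
    rw [mem_closure_iff]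
    constructor
    · intro h G
      obtain ⟨z, hz1, hz2⟩ := h (cyl G y) (isOpen_cyl G y) (mem_cyl_self G y)
      exact ⟨z, hz1, hz2⟩
    · intro h o ho hy
      obtain ⟨G, hG⟩ := exists_cyl ho hy
      obtain ⟨z, hz1, hz2⟩ := h G
      exact ⟨z, hG hz1, hz2⟩
  have heq : interior (closure V) = ⋃ G : Finset (C × ℕ),
      {p : Coh I | cyl (G.image fun q => ((q.1 : I), q.2)) p ⊆ closure V} := by
    ext p
    rw [mem_iUnion]
    constructor
    · intro hp
      obtain ⟨F, hF⟩ := exists_cyl isOpen_interior hp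
      have hF' : cyl F p ⊆ closure V := hF.trans interior_subset
      refine ⟨(F.subtype fun q => q.1 ∈ C).image fun q => (⟨q.1.1, q.2⟩, q.1.2), ?_⟩
      intro y hy
      rw [hmeet]
      intro G
      -- y' agrees with y on C and with p elsewhere
      let y' : Coh I := fun i => if i ∈ C then y i else p i
      have hy' : y' ∈ cyl F p := by
        intro q hq
        by_cases hqC : q.1 ∈ C
        · have h1 : y q.1 q.2 = p q.1 q.2 := by
            refine hy q ?_
            refine Finset.mem_image.2 ⟨(⟨q.1, hqC⟩, q.2), ?_, rfl⟩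
            exact Finset.mem_image.2 ⟨⟨q, hqC⟩, Finset.mem_subtype.2 hq, rfl⟩
          simp only [y', if_pos hqC]
          exact h1
        · simp only [y', if_neg hqC]
      obtain ⟨z, hz1, hz2⟩ := hmeet.1 (hF' hy') (G.filter fun q => q.1 ∈ C)
      refine ⟨fun i => if i ∈ C then z i else y i, fun q hq => ?_, ?_⟩
      · by_cases hqC : q.1 ∈ C
        · simp only [if_pos hqC]
          have h1 := hz1 q (Finset.mem_filter.2 ⟨hq, hqC⟩)
          simp only [y', if_pos hqC] at h1
          exact h1
        · simp only [if_neg hqC]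
      · have h1 : ((fun i => if i ∈ C then z i else y i) ∈ V) = (z ∈ V) :=
          hV fun i hi => by simp only [if_pos hi]
        rw [h1]
        exact hz2
    · rintro ⟨G, hG⟩
      refine mem_interior.2 ⟨_, hG, isOpen_cyl _ _, mem_cyl_self _ _⟩
  rw [heq]
  exact MeasurableSet.iUnion fun G => measurableSet_cyl_sub _ _

/-- Regular open sets depend on countably many coordinates (countable chain condition), so they
are measurable for the product sigma-algebra. -/
theorem measurable_In (b : RO (Coh I)) : MeasurableSet {p | In p b} := by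
  classical
  obtain ⟨S, hS1, hS2, hS3⟩ := exists_max_family {p : Coh I | In p b}
  have hSc : S.Countable := ccc (fun s hs => (hS1 s hs).1) hS2
  have hsup : ∀ s : S, ∃ F : Finset (I × ℕ), ∃ x, (s : Set (Coh I)) = cyl F x := fun s =>
    (hS1 s.1 s.2).1
  choose F x hFx using hsup
  have hSc' : Countable S := hSc.to_subtype
  set C : Set I := ⋃ s : S, (((F s).image Prod.fst : Finset I) : Set I) with hCdef
  have hC : C.Countable := countable_iUnion fun s => Finset.countable_toSet _
  have hV : DependsOn (fun y => y ∈ ⋃₀ S) C := by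
    intro y z hyz
    have h : ∀ (y z : Coh I), (∀ i ∈ C, y i = z i) → y ∈ ⋃₀ S → z ∈ ⋃₀ S := by
      rintro y z hyz ⟨s, hs, hy⟩
      have hy' := (Set.ext_iff.1 (hFx ⟨s, hs⟩) y).1 hy
      refine ⟨s, hs, (Set.ext_iff.1 (hFx ⟨s, hs⟩) z).2 ?_⟩
      intro q hq
      have h1 : q.1 ∈ C := mem_iUnion.2 ⟨⟨s, hs⟩, Finset.mem_coe.2 (Finset.mem_image.2 ⟨q, hq, rfl⟩)⟩
      rw [← hyz q.1 h1]
      exact hy' q hq
    exact propext ⟨h y z hyz, h z y fun i hi => (hyz i hi).symm⟩
  have hsub : ⋃₀ S ⊆ {p : Coh I | In p b} := sUnion_subset fun s hs => (hS1 s hs).2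
  have heq : {p : Coh I | In p b} = interior (closure (⋃₀ S)) := by
    apply Subset.antisymm
    · refine interior_maximal (fun p hp => ?_) (isOpen_In b)
      rw [mem_closure_iff]
      intro o ho hpo
      obtain ⟨G, hG⟩ := exists_cyl (ho.inter (isOpen_In b)) ⟨hpo, hp⟩
      obtain ⟨s, hs, z, hz1, hz2⟩ := hS3 G p fun y hy => (hG hy).2
      exact ⟨z, (hG hz2).1, s, hs, hz1⟩
    · intro p hp
      have hreg : (b.val)ᶜᶜ = b.val := b.prop
      have h1 : p ∈ (b.val)ᶜᶜ := by
        rw [mem_compl_opens]
        refine ⟨⟨interior (closure (⋃₀ S)), isOpen_interior⟩, hp, ?_⟩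
        rw [disjoint_iff_inf_le]
        intro q hq
        have hq1 : q ∈ interior (closure (⋃₀ S)) := hq.1
        have hq2 : q ∈ (b.val)ᶜ := hq.2
        have hq3 : q ∈ closure (⋃₀ S) := interior_subset hq1
        rw [mem_closure_iff] at hq3
        obtain ⟨z, hz1, hz2⟩ := hq3 ((b.val)ᶜ : Opens (Coh I)) ((b.val)ᶜ : Opens (Coh I)).isOpen hq2
        exact absurd (hsub hz2 : In z b) (not_mem_of_compl (U := b.val) hz1)
      rw [hreg] at h1
      exact h1
  rw [heq]
  exact measurableSet_interior_closure hC hV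

/-- The Borel name of a Boolean-valued subset of `T`. -/
def nm {T : Type} (x : T → RO (Coh I)) (p : Coh I) : Set T := {t | In p (x t)}

theorem measurable_nm {T : Type} [Countable T] (x : T → RO (Coh I)) : Measurable (nm x) := by
  rw [measurable_set_iff]
  intro t
  exact measurableSet_setOfPred.1 (measurable_In (x t))

/-- From Borel names to Boolean-valued subsets. -/
theorem of_name {T : Type} [Countable T] {f : Coh I → Set T} (hf : Measurable f) :
    ∃ x : T → RO (Coh I), Frc fun p => nm x p = f p := by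
  refine ⟨fun t => val fun q => t ∈ f q, ?_⟩
  have h : ∀ᶠ p in residual (Coh I), ∀ t, In p (val fun q => t ∈ f q) ↔ t ∈ f p :=
    eventually_countable_forall.2 fun t => frc_val ((measurable_set_iff.1 hf t).setOf)
  show ∀ᶠ p in residual (Coh I), nm (fun t => val fun q => t ∈ f q) p = f p
  filter_upwards [h] with p hp
  ext t
  exact hp t

end Pool.Agent.Sc72
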