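import Pool.Agent.Sc72.Defs
import Pool.Agent.Nm65.Z472

/-!
MP_50671f: the strict inequalities between the additivities and between the cofinalities, stated
with families of sequences of clopen sets.
-/

namespace Pool.Agent.Sc72

open Set Filter TopologicalSpace Cardinal Pool.Agent.Nm65

lemma scard_K {c : ℕ → Set Cantor} (hc : OmegaBar c) :
    ∃ c' : ℕ → K, (fun n => (c' n : Set Cantor)) = c :=
  ⟨fun n => ⟨c n, hc.1 n⟩, rfl⟩

/-- A code of every member. -/
lemma scard_code {N : (ℕ → Set Cantor) → Set Cantor} {A : Set Cantor}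
    (h : ∃ c, OmegaBar c ∧ A ⊆ N c) :
    ∃ c : ℕ → K, (OmegaBar fun n => (c n : Set Cantor)) ∧ A ⊆ N fun n => (c n : Set Cantor) := by
  obtain ⟨c, hc, hA⟩ := h
  obtain ⟨c', rfl⟩ := scard_K hc
  exact ⟨c', hc, hA⟩

/-- A nonempty family which is not larger than `F` is the image of `F`. -/
lemma scard_surj {α β : Type} {F : Set α} {G : Set β} (hG : G.Nonempty) (h : #G ≤ #F) :
    ∃ g : α → β, (∀ a ∈ F, g a ∈ G) ∧ ∀ b ∈ G, ∃ a ∈ F, g a = b := by
  classical
  obtain ⟨b0, hb0⟩ := hG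
  obtain ⟨e⟩ := h
  refine ⟨fun a => if h : ∃ b : G, (e b : α) = a then (h.choose : β) else b0, ?_, ?_⟩
  · intro a _
    by_cases h : ∃ b : G, (e b : α) = a
    · simp only [h, dite_true]
      exact h.choose.2
    · simp only [h, dite_false]
      exact hb0
  · intro b hb
    refine ⟨(e ⟨b, hb⟩ : α), (e ⟨b, hb⟩).2, ?_⟩
    have h : ∃ b' : G, (e b' : α) = (e ⟨b, hb⟩ : α) := ⟨⟨b, hb⟩, rfl⟩
    simp only [h, dite_true]
    have h2 : h.choose = ⟨b, hb⟩ := e.injective (Subtype.ext h.choose_spec)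
    rw [h2]

theorem add_lt_iff {J : Set (Set ℕ)} (hJ : IsIdeal J) : add (calN J) < add (calNs J) ↔
    ∃ F : Set (ℕ → K), (∀ c ∈ F, OmegaBar fun n => (c n : Set Cantor)) ∧
      (¬ ∃ d : ℕ → K, (OmegaBar fun n => (d n : Set Cantor)) ∧
        ∀ c ∈ F, NJ J (fun n => (c n : Set Cantor)) ⊆ NJ J (fun n => (d n : Set Cantor))) ∧
      ∀ H : (ℕ → K) → (ℕ → K), (∀ c ∈ F, OmegaBar fun n => (H c n : Set Cantor)) →
        ∃ d : ℕ → K, (OmegaBar fun n => (d n : Set Cantor)) ∧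
          ∀ c ∈ F, NsJ J (fun n => (H c n : Set Cantor)) ⊆
            NsJ J (fun n => (d n : Set Cantor)) := by
  constructor
  · intro hlt
    have hne : {κ : Cardinal | ∃ F : Set (Set Cantor), F ⊆ calN J ∧ #F = κ ∧
        ⋃₀ F ∉ calN J}.Nonempty :=
      ⟨_, calN J, Set.Subset.rfl, rfl, by
        rw [Z72.sUnion_calN hJ]; exact Z72.univ_notMem_calN hJ⟩
    obtain ⟨G, hG, hGc, hGU⟩ := csInf_mem hne
    have hGc' : #G = add (calN J) := hGc
    have hcode : ∀ A ∈ G, ∃ c : ℕ → K, (OmegaBar fun n => (c n : Set Cantor)) ∧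
        A ⊆ NJ J fun n => (c n : Set Cantor) := fun A hA => scard_code (hG hA)
    choose! f hf1 hf2 using hcode
    refine ⟨f '' G, ?_, ?_, ?_⟩
    · rintro _ ⟨A, hA, rfl⟩
      exact hf1 A hA
    · rintro ⟨d, hd, hb⟩
      exact hGU ⟨_, hd, Set.sUnion_subset fun A hA => (hf2 A hA).trans (hb _ ⟨A, hA, rfl⟩)⟩
    · intro H hH
      have hsub : (fun c => NsJ J fun n => (H c n : Set Cantor)) '' (f '' G) ⊆ calNs J := by
        rintro _ ⟨c, hc, rfl⟩
        exact ⟨_, hH c hc, Set.Subset.rfl⟩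
      have hcard : #((fun c => NsJ J fun n => (H c n : Set Cantor)) '' (f '' G)) <
          add (calNs J) := by
        refine lt_of_le_of_lt ((Cardinal.mk_image_le).trans Cardinal.mk_image_le) ?_
        rw [hGc']
        exact hlt
      have hU : ⋃₀ ((fun c => NsJ J fun n => (H c n : Set Cantor)) '' (f '' G)) ∈ calNs J := by
        by_contra hU
        have h9 : add (calNs J) ≤
            #((fun c => NsJ J fun n => (H c n : Set Cantor)) '' (f '' G)) :=
          csInf_le' ⟨_, hsub, rfl, hU⟩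
        exact absurd h9 (not_le.2 hcard)
      obtain ⟨d, hd, hdU⟩ := scard_code hU
      exact ⟨d, hd, fun c hc => Set.Subset.trans (Set.subset_sUnion_of_mem
        (Set.mem_image_of_mem (fun c => NsJ J fun n => (H c n : Set Cantor)) hc)) hdU⟩
  · rintro ⟨F, hF, hFU, hFH⟩
    have h1 : add (calN J) ≤ #F := by
      refine le_trans (csInf_le' ⟨(fun c : ℕ → K => NJ J fun n => (c n : Set Cantor)) '' F, ?_, rfl,
        ?_⟩) Cardinal.mk_image_le
      · rintro _ ⟨c, hc, rfl⟩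
        exact ⟨_, hF c hc, Set.Subset.rfl⟩
      · intro hU
        obtain ⟨d, hd, hdU⟩ := scard_code hU
        exact hFU ⟨d, hd, fun c hc => Set.Subset.trans (Set.subset_sUnion_of_mem
          (Set.mem_image_of_mem (fun c : ℕ → K => NJ J fun n => (c n : Set Cantor)) hc)) hdU⟩
    refine lt_of_le_of_lt h1 ?_
    by_contra hle
    rw [not_lt] at hle
    have hne : {κ : Cardinal | ∃ F : Set (Set Cantor), F ⊆ calNs J ∧ #F = κ ∧
        ⋃₀ F ∉ calNs J}.Nonempty :=
      ⟨_, calNs J, Set.Subset.rfl, rfl, by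
        rw [Z72.sUnion_calNs hJ]; exact Z72.univ_notMem_calNs hJ⟩
    obtain ⟨G, hG, hGc, hGU⟩ := csInf_mem hne
    have hGc' : #G = add (calNs J) := hGc
    have hGne : G.Nonempty := by
      rw [Set.nonempty_iff_ne_empty]
      rintro rfl
      apply hGU
      rw [Set.sUnion_empty]
      exact ⟨_, Z72.omegaBar_cy (fun _ => true), Set.empty_subset _⟩
    obtain ⟨g, hg1, hg2⟩ := scard_surj hGne (hGc'.trans_le hle)
    have hcode : ∀ c ∈ F, ∃ c' : ℕ → K, (OmegaBar fun n => (c' n : Set Cantor)) ∧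
        g c ⊆ NsJ J fun n => (c' n : Set Cantor) := fun c hc => scard_code (hG (hg1 c hc))
    choose! H hH1 hH2 using hcode
    obtain ⟨d, hd, hdH⟩ := hFH H hH1
    refine hGU ⟨_, hd, Set.sUnion_subset fun A hA => ?_⟩
    obtain ⟨c, hc, rfl⟩ := hg2 A hA
    exact (hH2 c hc).trans (hdH c hc)

theorem cof_lt_iff {J : Set (Set ℕ)} (_hJ : IsIdeal J) : cof (calNs J) < cof (calN J) ↔
    ∃ F : Set (ℕ → K), (∀ c ∈ F, OmegaBar fun n => (c n : Set Cantor)) ∧
      (∀ c : ℕ → K, (OmegaBar fun n => (c n : Set Cantor)) →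
        ∃ d ∈ F, NsJ J (fun n => (c n : Set Cantor)) ⊆ NsJ J (fun n => (d n : Set Cantor))) ∧
      ∀ H : (ℕ → K) → (ℕ → K), (∀ c ∈ F, OmegaBar fun n => (H c n : Set Cantor)) →
        ∃ c : ℕ → K, (OmegaBar fun n => (c n : Set Cantor)) ∧
          ∀ d ∈ F, ¬ NJ J (fun n => (c n : Set Cantor)) ⊆
            NJ J (fun n => (H d n : Set Cantor)) := by
  constructor
  · intro hlt
    have hne : {κ : Cardinal | ∃ B : Set (Set Cantor), B ⊆ calNs J ∧ #B = κ ∧
        ∀ A ∈ calNs J, ∃ C ∈ B, A ⊆ C}.Nonempty :=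
      ⟨_, calNs J, Set.Subset.rfl, rfl, fun A hA => ⟨A, hA, Set.Subset.rfl⟩⟩
    obtain ⟨G, hG, hGc, hGU⟩ := csInf_mem hne
    have hGc' : #G = cof (calNs J) := hGc
    have hcode : ∀ A ∈ G, ∃ c : ℕ → K, (OmegaBar fun n => (c n : Set Cantor)) ∧
        A ⊆ NsJ J fun n => (c n : Set Cantor) := fun A hA => scard_code (hG hA)
    choose! f hf1 hf2 using hcode
    refine ⟨f '' G, ?_, ?_, ?_⟩
    · rintro _ ⟨A, hA, rfl⟩
      exact hf1 A hA
    · intro c hc
      obtain ⟨B, hB, hcB⟩ := hGU _ ⟨_, hc, Set.Subset.rfl⟩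
      exact ⟨f B, ⟨B, hB, rfl⟩, hcB.trans (hf2 B hB)⟩
    · intro H hH
      have hsub : (fun c => NJ J fun n => (H c n : Set Cantor)) '' (f '' G) ⊆ calN J := by
        rintro _ ⟨c, hc, rfl⟩
        exact ⟨_, hH c hc, Set.Subset.rfl⟩
      have hcard : #((fun c => NJ J fun n => (H c n : Set Cantor)) '' (f '' G)) <
          cof (calN J) := by
        refine lt_of_le_of_lt ((Cardinal.mk_image_le).trans Cardinal.mk_image_le) ?_
        rw [hGc']
        exact hlt
      have hU : ∃ A ∈ calN J, ∀ C ∈ (fun c => NJ J fun n => (H c n : Set Cantor)) '' (f '' G),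
          ¬ A ⊆ C := by
        by_contra hU
        push Not at hU
        have h9 : cof (calN J) ≤
            #((fun c => NJ J fun n => (H c n : Set Cantor)) '' (f '' G)) :=
          csInf_le' ⟨_, hsub, rfl, hU⟩
        exact absurd h9 (not_le.2 hcard)
      obtain ⟨A, hA, hAC⟩ := hU
      obtain ⟨c, hc, hcA⟩ := scard_code hA
      exact ⟨c, hc, fun d hd h => hAC _ ⟨d, hd, rfl⟩ (hcA.trans h)⟩
  · rintro ⟨F, hF, hFU, hFH⟩
    have h1 : cof (calNs J) ≤ #F := by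
      refine le_trans (csInf_le' ⟨(fun c : ℕ → K => NsJ J fun n => (c n : Set Cantor)) '' F, ?_,
        rfl, ?_⟩) Cardinal.mk_image_le
      · rintro _ ⟨c, hc, rfl⟩
        exact ⟨_, hF c hc, Set.Subset.rfl⟩
      · intro A hA
        obtain ⟨c, hc, hAc⟩ := scard_code hA
        obtain ⟨d, hd, hcd⟩ := hFU c hc
        exact ⟨_, ⟨d, hd, rfl⟩, hAc.trans hcd⟩
    refine lt_of_le_of_lt h1 ?_
    by_contra hle
    rw [not_lt] at hle
    have hne : {κ : Cardinal | ∃ B : Set (Set Cantor), B ⊆ calN J ∧ #B = κ ∧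
        ∀ A ∈ calN J, ∃ C ∈ B, A ⊆ C}.Nonempty :=
      ⟨_, calN J, Set.Subset.rfl, rfl, fun A hA => ⟨A, hA, Set.Subset.rfl⟩⟩
    obtain ⟨G, hG, hGc, hGU⟩ := csInf_mem hne
    have hGc' : #G = cof (calN J) := hGc
    have hGne : G.Nonempty := by
      obtain ⟨C, hC, -⟩ := hGU (NJ J fun n => Z72.cy n (fun _ => true))
        ⟨_, Z72.omegaBar_cy (fun _ => true), Set.Subset.rfl⟩
      exact ⟨C, hC⟩
    obtain ⟨g, hg1, hg2⟩ := scard_surj hGne (hGc'.trans_le hle)
    have hcode : ∀ c ∈ F, ∃ c' : ℕ → K, (OmegaBar fun n => (c' n : Set Cantor)) ∧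
        g c ⊆ NJ J fun n => (c' n : Set Cantor) := fun c hc => scard_code (hG (hg1 c hc))
    choose! H hH1 hH2 using hcode
    obtain ⟨c, hc, hcH⟩ := hFH H hH1
    obtain ⟨B, hB, hcB⟩ := hGU _ ⟨_, hc, Set.Subset.rfl⟩
    obtain ⟨d, hd, rfl⟩ := hg2 B hB
    exact hcH d hd (hcB.trans (hH2 d hd))

end Pool.Agent.Sc72
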