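import Pool.Agent.Sc72.Defs
import Pool.Agent.Nm65.NonM47

/-!
MP_50671f, Scott form: in the two-element algebra `vNonMeager` is non-meagerness.
-/

namespace Pool.Agent.Sc72

open Set Filter Pool.Agent.Nm65 Pool.Agent.Nm65.N47

lemma vInit_prop (s : List Bool) (x : ℕ → Prop) :
    vInit (B := Prop) s x ↔ ∀ i (h : i < s.length), s[i] = true ↔ x i := by
  unfold vInit
  rw [iInf_Prop_eq]
  constructor
  · intro h i hi
    have h1 := h ⟨i, hi⟩
    by_cases hs : s.get ⟨i, hi⟩ = true
    · rw [if_pos hs] at h1
      exact iff_of_true hs h1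
    · rw [if_neg hs] at h1
      exact iff_of_false hs h1
  · intro h i
    have h1 := h i i.isLt
    by_cases hs : s.get i = true
    · rw [if_pos hs]
      exact h1.1 hs
    · rw [if_neg hs]
      exact fun hx => hs (h1.2 hx)

lemma vNonMeager_prop' (J : (ℕ → Prop) → Prop) : vNonMeager (B := Prop) J ↔
    ∀ D : ℕ × List Bool → Prop, (∀ k t, ∃ u, D (k, t ++ u)) →
      ∃ x : ℕ → Prop, J x ∧ ∀ k, ∃ s : List Bool, D (k, s) ∧ vInit s x := by
  unfold vNonMeager
  simp only [iInf_Prop_eq, iSup_Prop_eq, himp_iff_imp, inf_Prop_eq]

/-- The cylinder of a finite sequence. -/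
lemma isOpen_cylinder_list (s : List Bool) :
    IsOpen {z : Cantor | ∀ i (h : i < s.length), s[i] = true ↔ z i = true} := by
  have h : {z : Cantor | ∀ i (h : i < s.length), s[i] = true ↔ z i = true} =
      ⋂ i : Fin s.length, {z : Cantor | z i = s.get i} := by
    ext z
    simp only [mem_ofPred_eq, mem_iInter]
    constructor
    · intro h i
      have := h i i.isLt
      exact (Bool.eq_iff_iff.2 this).symm
    · intro h i hi
      have := h ⟨i, hi⟩
      rw [this]
      rfl
  rw [h]
  refine isOpen_iInter_of_finite fun i => ?_
  have h1 : Continuous fun z : Cantor => z (i : ℕ) := continuous_apply _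
  exact (isOpen_discrete {s.get i}).preimage h1

theorem vNonMeager_prop (J : Set (Set ℕ)) :
    vNonMeager (B := Prop) (fun x => {n | x n} ∈ J) ↔ NonMeager J := by
  classical
  rw [vNonMeager_prop']
  constructor
  · intro h hM
    obtain ⟨S, hS, hSc, hsub⟩ := isMeagre_iff_countable_union_isNowhereDense.1 hM
    have hS' : (insert ∅ S).Countable := hSc.insert _
    obtain ⟨N, hN⟩ := hS'.exists_eq_range (insert_nonempty _ _)
    have hNd : ∀ k, IsNowhereDense (N k) := by
      intro k
      have : N k ∈ insert ∅ S := by rw [hN]; exact mem_range_self k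
      rcases this with h | h
      · rw [h]; exact isNowhereDense_empty
      · exact hS _ h
    obtain ⟨x, hx, hx2⟩ := h (fun q => ∀ z : Cantor,
        (∀ i (h : i < q.2.length), q.2[i] = true ↔ z i = true) → z ∉ N q.1) (by
      intro k t
      obtain ⟨m', y, hm', hy, hy2⟩ := avoid_step (hNd k) (fun i => t.getD i false) t.length
      refine ⟨(List.ofFn fun i : Fin (m' - t.length) => y (t.length + i)), ?_⟩
      intro z hz
      refine hy2 z fun i hi => ?_
      dsimp only at hz
      have hlen : i < (t ++ List.ofFn fun i : Fin (m' - t.length) => y (t.length + i)).length := by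
        simp only [List.length_append, List.length_ofFn]
        omega
      have h1 := Bool.eq_iff_iff.2 (hz i hlen)
      rw [← h1]
      by_cases hit : i < t.length
      · rw [List.getElem_append_left hit, hy i hit]
        simp [hit]
      · rw [List.getElem_append_right (not_lt.1 hit)]
        simp only [List.getElem_ofFn]
        congr 1
        omega)
    let z : Cantor := fun n => if x n then true else false
    have hz : ∀ n, z n = true ↔ x n := by
      intro n
      by_cases hn : x n <;> simp [z, hn]
    have hzJ : {n | z n = true} ∈ J := by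
      have : {n | z n = true} = {n | x n} := by
        ext n; exact hz n
      rw [this]
      exact hx
    obtain ⟨B, hB, hzB⟩ := hsub hzJ
    have hBN : B ∈ insert ∅ S := mem_insert_of_mem _ hB
    rw [hN] at hBN
    obtain ⟨k, rfl⟩ := hBN
    obtain ⟨s, hs1, hs2⟩ := hx2 k
    refine hs1 z (fun i hi => ?_) hzB
    rw [hz i]
    exact (vInit_prop s x).1 hs2 i hi
  · intro hJ D hD
    by_contra hcon
    push Not at hcon
    apply hJ
    let U : ℕ → Set Cantor := fun k => {z | ∃ s, D (k, s) ∧ ∀ i (h : i < s.length), s[i] = true ↔ z i = true}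
    have hUo : ∀ k, IsOpen (U k) := by
      intro k
      have : U k = ⋃ (s : List Bool) (_ : D (k, s)),
          {z : Cantor | ∀ i (h : i < s.length), s[i] = true ↔ z i = true} := by
        ext z
        simp only [U, mem_ofPred_eq, mem_iUnion, exists_prop]
      rw [this]
      exact isOpen_iUnion fun s => isOpen_iUnion fun _ => isOpen_cylinder_list s
    have hUd : ∀ k, Dense (U k) := by
      intro k
      refine (PiNat.isTopologicalBasis_cylinders (fun _ => Bool)).dense_iff.2 ?_
      rintro o ⟨x, n, rfl⟩ _
      obtain ⟨u, hu⟩ := hD k (List.ofFn fun i : Fin n => x i)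
      refine ⟨fun i => ((List.ofFn fun i : Fin n => x i) ++ u).getD i false, fun i hi => ?_,
        _, hu, fun i hi => ?_⟩
      · have h1 : i < (List.ofFn fun i : Fin n => x i).length := by simpa using hi
        dsimp only
        rw [List.getD_eq_getElem?_getD, List.getElem?_append_left h1, List.getElem?_eq_getElem h1]
        simp
      · dsimp only
        rw [List.getD_eq_getElem?_getD, List.getElem?_eq_getElem hi]
        rfl
    have hres : (⋂ k, U k) ∈ residual Cantor :=
      countable_iInter_mem.2 fun k => residual_of_dense_open (hUo k) (hUd k)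
    show {x : Cantor | {n | x n = true} ∈ J}ᶜ ∈ residual Cantor
    refine mem_of_superset hres fun z hz hzJ => ?_
    obtain ⟨k, hk⟩ := hcon (fun n => z n = true) hzJ
    obtain ⟨s, hs1, hs2⟩ := mem_iInter.1 hz k
    exact hk s hs1 ((vInit_prop s _).2 hs2)

end Pool.Agent.Sc72
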