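import Pool.Agent.Sc72.Seq

/-!
Members of OmegaBar and points in the two-element algebra.
-/

namespace Pool.Agent.Sc72

open Set Filter TopologicalSpace Pool.Agent.Nm65

/-- The graph of a sequence. -/
def gr (c : ℕ → K) : ℕ × K → Prop := fun q => c q.1 = q.2

lemma vFun_prop (c : ℕ × K → Prop) : vFun c ↔ ∃ c0 : ℕ → K, c = gr c0 := by
  simp only [vFun, iInf_Prop_eq, iSup_Prop_eq, inf_Prop_eq, compl_iff_not]
  constructor
  · rintro ⟨h1, h2⟩
    choose c0 h0 using h1
    refine ⟨c0, funext fun q => propext ⟨fun hq => ?_, fun hq => ?_⟩⟩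
    · by_contra hne
      exact h2 q.1 (c0 q.1) q.2 hne ⟨h0 q.1, hq⟩
    · have hq' : c0 q.1 = q.2 := hq
      have := h0 q.1
      rw [hq'] at this
      exact this
  · rintro ⟨c0, rfl⟩
    refine ⟨fun n => ⟨c0 n, rfl⟩, ?_⟩
    rintro n a b hab ⟨ha, hb⟩
    exact hab (ha.symm.trans hb)

theorem vOmega_prop (c : ℕ × K → Prop) :
    vOmega c ↔ ∃ c0 : ℕ → K, c = gr c0 ∧ OmegaBar fun n => (c0 n : Set Cantor) := by
  have e : vOmega c ↔ vFun c ∧ vNull c := Iff.rfl
  rw [e, vFun_prop]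
  have key : ∀ c0 : ℕ → K, vNull (gr c0) ↔ OmegaBar fun n => (c0 n : Set Cantor) := by
    intro c0
    rw [omegaBar_iff_tail fun n => (c0 n).isClopen]
    simp only [vNull, iInf_Prop_eq, iSup_Prop_eq]
    refine forall_congr' fun k => exists_congr fun m => forall_congr' fun l => ?_
    constructor
    · rintro ⟨f, h1, h2⟩
      have : f = fun n : Fin l => c0 n := funext fun n => (h2 n).symm
      rw [this] at h1
      exact h1
    · intro h
      exact ⟨fun n => c0 n, h, fun n => rfl⟩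
  constructor
  · rintro ⟨⟨c0, rfl⟩, h⟩
    exact ⟨c0, rfl, (key c0).1 h⟩
  · rintro ⟨c0, rfl, h⟩
    exact ⟨⟨c0, rfl⟩, (key c0).2 h⟩

lemma vInit_prop' (s : List Bool) (x : Cantor) :
    vInit s (fun n => x n = true) ↔ x ∈ cylL s := by
  simp only [vInit, iInf_Prop_eq]
  show _ ↔ ∀ i : Fin s.length, x i = s.get i
  refine forall_congr' fun i => ?_
  by_cases h : s.get i = true
  · rw [if_pos h, h]
  · rw [if_neg h, compl_iff_not]
    rw [Bool.not_eq_true] at h
    rw [h, Bool.not_eq_true]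

theorem vMem_prop (x : Cantor) (c : ℕ → K) (n : ℕ) :
    vMem (fun n => x n = true) (gr c) n ↔ x ∈ c n := by
  simp only [vMem, iSup_Prop_eq, inf_Prop_eq, vInit_prop']
  constructor
  · rintro ⟨a, ha, s, hs, hx⟩
    have ha' : c n = a := ha
    rw [ha']
    exact hs hx
  · intro h
    obtain ⟨s, hs, hx⟩ := (mem_iff_cylL (c n).isClopen.isOpen).1 h
    exact ⟨c n, rfl, s, hs, hx⟩

end Pool.Agent.Sc72
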