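import Pool.Agent.Sc72.SOm
import Pool.Agent.Sc72.SNM
import Pool.Agent.Sc72.SCard

/-!
In the two-element algebra the Boolean-valued statements are the statements of the problem.
-/

namespace Pool.Agent.Sc72

open Set Pool.Agent.Nm65

namespace Sane

/-- The set of sets of a predicate. -/
def ofJ (J : (ℕ → Prop) → Prop) : Set (Set ℕ) := {A | J fun n => n ∈ A}

lemma mem_ofJ (J : (ℕ → Prop) → Prop) (x : ℕ → Prop) : {n | x n} ∈ ofJ J ↔ J x := Iff.rfl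

lemma vEq_prop {T : Type} (x y : T → Prop) : vEq x y ↔ x = y := by
  simp only [vEq, iInf_Prop_eq, inf_Prop_eq, himp_iff_imp]
  exact ⟨fun h => funext fun t => propext ⟨(h t).1, (h t).2⟩, fun h t => h ▸ ⟨id, id⟩⟩

lemma ext_prop {T : Type} (F : (T → Prop) → Prop) : Ext F := by
  rintro x y ⟨h1, h2⟩
  rw [vEq_prop] at h2
  exact h2 ▸ h1

lemma ext2_prop {T : Type} (H : (T → Prop) → (T → Prop) → Prop) : Ext2 H := by
  rintro x x' y y' ⟨⟨h1, h2⟩, h3⟩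
  rw [vEq_prop] at h2 h3
  exact h2 ▸ h3 ▸ h1

lemma vIdeal_prop (J : (ℕ → Prop) → Prop) : vIdeal J ↔ IsIdeal (ofJ J) := by
  simp only [vIdeal, iInf_Prop_eq, iSup_Prop_eq, inf_Prop_eq, himp_iff_imp, compl_iff_not, IsIdeal]
  constructor
  · rintro ⟨⟨⟨h1, h2⟩, h3⟩, h4⟩
    refine ⟨fun A hA C hC => h1 _ _ ⟨hA, fun n hn => hC hn⟩, fun A hA C hC => h2 _ _ ⟨hA, hC⟩,
      fun A hA => h3 _ ?_, fun h => h4 ?_⟩
    · obtain ⟨m, hm⟩ := hA.bddAbove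
      exact ⟨m + 1, fun n hn hnA => absurd (hm hnA) (by omega)⟩
    · exact h
  · rintro ⟨h1, h2, h3, h4⟩
    refine ⟨⟨⟨fun x y h => ?_, fun x y h => ?_⟩, fun x h => ?_⟩, fun h => h4 ?_⟩
    · exact h1 {n | x n} h.1 {n | y n} fun n hn => h.2 n hn
    · exact h2 {n | x n} h.1 {n | y n} h.2
    · obtain ⟨m, hm⟩ := h
      refine h3 {n | x n} ((Set.finite_lt_nat m).subset fun n hn => ?_)
      by_contra hmn
      exact hm n (not_lt.1 hmn) hn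
    · exact h

lemma gr_inj {c d : ℕ → K} (h : gr c = gr d) : c = d := by
  funext n
  have h1 := congrFun h (n, d n)
  have h2 : (c n = d n) = (d n = d n) := h1
  rw [h2]

lemma vOmega_gr (c : ℕ → K) : vOmega (gr c) ↔ OmegaBar fun n => (c n : Set Cantor) := by
  rw [vOmega_prop]
  exact ⟨fun ⟨c0, h, h'⟩ => gr_inj h ▸ h', fun h => ⟨c, rfl, h⟩⟩

open Classical in
lemma exists_cantor (x : ℕ → Prop) : ∃ y : Cantor, x = fun n => y n = true :=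
  ⟨fun n => decide (x n), funext fun n => by simp⟩

lemma vN_gr (J : (ℕ → Prop) → Prop) (c : ℕ → K) (y : Cantor) :
    vN J (gr c) (fun n => y n = true) ↔ y ∈ NJ (ofJ J) fun n => (c n : Set Cantor) := by
  unfold vN
  rw [compl_iff_not]
  have h : (fun n => vMem (fun n => y n = true) (gr c) n) = fun n => y ∈ c n :=
    funext fun n => propext (vMem_prop y c n)
  rw [h]
  exact Iff.rfl

lemma vNs_gr (J : (ℕ → Prop) → Prop) (c : ℕ → K) (y : Cantor) :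
    vNs J (gr c) (fun n => y n = true) ↔ y ∈ NsJ (ofJ J) fun n => (c n : Set Cantor) := by
  unfold vNs
  have h : (fun n => (vMem (fun n => y n = true) (gr c) n)ᶜ) = fun n => ¬ y ∈ c n :=
    funext fun n => propext (by rw [compl_iff_not, vMem_prop y c n])
  rw [h]
  exact Iff.rfl

lemma vNSub_gr (J : (ℕ → Prop) → Prop) (c d : ℕ → K) : vNSub J (gr c) (gr d) ↔
    NJ (ofJ J) (fun n => (c n : Set Cantor)) ⊆ NJ (ofJ J) (fun n => (d n : Set Cantor)) := by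
  unfold vNSub
  rw [iInf_Prop_eq]
  constructor
  · intro h y hy
    exact (vN_gr J d y).1 (h (fun n => y n = true) ((vN_gr J c y).2 hy))
  · intro h x hx
    obtain ⟨y, rfl⟩ := exists_cantor x
    exact (vN_gr J d y).2 (h ((vN_gr J c y).1 hx))

lemma vNsSub_gr (J : (ℕ → Prop) → Prop) (c d : ℕ → K) : vNsSub J (gr c) (gr d) ↔
    NsJ (ofJ J) (fun n => (c n : Set Cantor)) ⊆ NsJ (ofJ J) (fun n => (d n : Set Cantor)) := by
  unfold vNsSub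
  rw [iInf_Prop_eq]
  constructor
  · intro h y hy
    exact (vNs_gr J d y).1 (h (fun n => y n = true) ((vNs_gr J c y).2 hy))
  · intro h x hx
    obtain ⟨y, rfl⟩ := exists_cantor x
    exact (vNs_gr J d y).2 (h ((vNs_gr J c y).1 hx))

/-- The graph of a map between sequences. -/
def Gr (H : (ℕ → K) → (ℕ → K)) (c c' : ℕ × K → Prop) : Prop := ∃ c0, c = gr c0 ∧ c' = gr (H c0)

lemma vMap_Gr {F : (ℕ × K → Prop) → Prop} (hF : vIn F) {H : (ℕ → K) → (ℕ → K)}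
    (hH : ∀ c, F (gr c) → OmegaBar fun n => (H c n : Set Cantor)) : vMap F (Gr H) := by
  simp only [vIn, vMap, iInf_Prop_eq, iSup_Prop_eq, inf_Prop_eq, himp_iff_imp] at hF ⊢
  constructor
  · intro c hc
    obtain ⟨c0, rfl, h0⟩ := (vOmega_prop c).1 (hF c hc)
    exact ⟨gr (H c0), ⟨c0, rfl, rfl⟩, (vOmega_gr _).2 (hH c0 hc)⟩
  · rintro c d d' ⟨⟨-, ⟨c0, rfl, rfl⟩⟩, ⟨c1, h1, rfl⟩⟩
    rw [vEq_prop, gr_inj h1]

/-- A map from a functional relation. -/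
lemma exists_map {F : (ℕ × K → Prop) → Prop} (hF : vIn F)
    {H : (ℕ × K → Prop) → (ℕ × K → Prop) → Prop} (hH : vMap F H) :
    ∃ H0 : (ℕ → K) → (ℕ → K), (∀ c, F (gr c) → OmegaBar fun n => (H0 c n : Set Cantor)) ∧
      ∀ c c', F c → H c c' → ∃ c0, c = gr c0 ∧ c' = gr (H0 c0) := by
  simp only [vIn, vMap, iInf_Prop_eq, iSup_Prop_eq, inf_Prop_eq, himp_iff_imp] at hF hH
  have h1 : ∀ c0 : ℕ → K, ∃ c1 : ℕ → K, F (gr c0) →
      H (gr c0) (gr c1) ∧ OmegaBar fun n => (c1 n : Set Cantor) := by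
    intro c0
    by_cases h : F (gr c0)
    · obtain ⟨d, hd1, hd2⟩ := hH.1 _ h
      obtain ⟨c1, rfl, h2⟩ := (vOmega_prop d).1 hd2
      exact ⟨c1, fun _ => ⟨hd1, h2⟩⟩
    · exact ⟨c0, fun h' => absurd h' h⟩
  choose H0 hH0 using h1
  refine ⟨H0, fun c hc => (hH0 c hc).2, fun c c' hc hcc => ?_⟩
  obtain ⟨c0, rfl, -⟩ := (vOmega_prop c).1 (hF c hc)
  exact ⟨c0, rfl, (vEq_prop _ _).1 (hH.2 _ _ _ ⟨⟨hc, hcc⟩, (hH0 c0 hc).1⟩)⟩

/-- The right side of `add_lt_iff`. -/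
def CondA (J : Set (Set ℕ)) (F : Set (ℕ → K)) : Prop :=
  (∀ c ∈ F, OmegaBar fun n => (c n : Set Cantor)) ∧
      (¬ ∃ d : ℕ → K, (OmegaBar fun n => (d n : Set Cantor)) ∧
        ∀ c ∈ F, NJ J (fun n => (c n : Set Cantor)) ⊆ NJ J (fun n => (d n : Set Cantor))) ∧
      ∀ H : (ℕ → K) → (ℕ → K), (∀ c ∈ F, OmegaBar fun n => (H c n : Set Cantor)) →
        ∃ d : ℕ → K, (OmegaBar fun n => (d n : Set Cantor)) ∧
          ∀ c ∈ F, NsJ J (fun n => (H c n : Set Cantor)) ⊆ NsJ J (fun n => (d n : Set Cantor))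

/-- The right side of `cof_lt_iff`. -/
def CondC (J : Set (Set ℕ)) (F : Set (ℕ → K)) : Prop :=
  (∀ c ∈ F, OmegaBar fun n => (c n : Set Cantor)) ∧
      (∀ c : ℕ → K, (OmegaBar fun n => (c n : Set Cantor)) →
        ∃ d ∈ F, NsJ J (fun n => (c n : Set Cantor)) ⊆ NsJ J (fun n => (d n : Set Cantor))) ∧
      ∀ H : (ℕ → K) → (ℕ → K), (∀ c ∈ F, OmegaBar fun n => (H c n : Set Cantor)) →
        ∃ c : ℕ → K, (OmegaBar fun n => (c n : Set Cantor)) ∧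
          ∀ d ∈ F, ¬ NJ J (fun n => (c n : Set Cantor)) ⊆ NJ J (fun n => (H d n : Set Cantor))

lemma vIn_iff (F : (ℕ × K → Prop) → Prop) :
    vIn F ↔ ∀ c, F c → ∃ c0, c = gr c0 ∧ OmegaBar fun n => (c0 n : Set Cantor) := by
  simp only [vIn, iInf_Prop_eq, himp_iff_imp, vOmega_prop]

lemma vAdd_prop (J : (ℕ → Prop) → Prop) (F : (ℕ × K → Prop) → Prop) :
    vAdd J F ↔ vIn F ∧ CondA (ofJ J) {c | F (gr c)} := by
  have e : vAdd J F ↔ vIn F ∧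
      (¬ ∃ d : ℕ × K → Prop, vOmega d ∧ ∀ c : ℕ × K → Prop, F c → vNSub J c d) ∧
      ∀ H : (ℕ × K → Prop) → (ℕ × K → Prop) → Prop, vMap F H →
        ∃ d : ℕ × K → Prop, vOmega d ∧
          ∀ c : ℕ × K → Prop, ∀ c' : ℕ × K → Prop, F c ∧ H c c' → vNsSub J c' d := by
    simp only [vAdd, iInf_Prop_eq, iSup_Prop_eq, inf_Prop_eq, himp_iff_imp, compl_iff_not,
      Subtype.forall, and_assoc]
    constructor
    · rintro ⟨h1, h2, h3⟩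
      exact ⟨h1, h2, fun H hH => h3 H (ext2_prop H) hH⟩
    · rintro ⟨h1, h2, h3⟩
      exact ⟨h1, h2, fun H _ hH => h3 H hH⟩
  rw [e]
  refine and_congr_right fun hF => ?_
  have hF' := (vIn_iff F).1 hF
  constructor
  · rintro ⟨h1, h2⟩
    refine ⟨fun c hc => ?_, ?_, ?_⟩
    · obtain ⟨c0, h0, h0'⟩ := hF' _ hc
      exact gr_inj h0 ▸ h0'
    · rintro ⟨d, hd, hcd⟩
      refine h1 ⟨gr d, (vOmega_gr d).2 hd, fun c hc => ?_⟩
      obtain ⟨c0, rfl, -⟩ := hF' c hc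
      exact (vNSub_gr J c0 d).2 (hcd c0 hc)
    · intro H hH
      obtain ⟨d, hd, hcd⟩ := h2 (Gr H) (vMap_Gr hF hH)
      obtain ⟨d0, rfl, hd0⟩ := (vOmega_prop d).1 hd
      exact ⟨d0, hd0, fun c hc => (vNsSub_gr J _ _).1 (hcd (gr c) (gr (H c)) ⟨hc, c, rfl, rfl⟩)⟩
  · rintro ⟨-, h1, h2⟩
    constructor
    · rintro ⟨d, hd, hcd⟩
      obtain ⟨d0, rfl, hd0⟩ := (vOmega_prop d).1 hd
      exact h1 ⟨d0, hd0, fun c hc => (vNSub_gr J _ _).1 (hcd _ hc)⟩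
    · intro H hH
      obtain ⟨H0, hH0, hHH⟩ := exists_map hF hH
      obtain ⟨d, hd, hcd⟩ := h2 H0 hH0
      refine ⟨gr d, (vOmega_gr d).2 hd, fun c c' h => ?_⟩
      obtain ⟨c0, rfl, rfl⟩ := hHH c c' h.1 h.2
      exact (vNsSub_gr J _ _).2 (hcd c0 h.1)

lemma vCof_prop (J : (ℕ → Prop) → Prop) (F : (ℕ × K → Prop) → Prop) :
    vCof J F ↔ vIn F ∧ CondC (ofJ J) {c | F (gr c)} := by
  have e : vCof J F ↔ vIn F ∧
      (∀ c : ℕ × K → Prop, vOmega c → ∃ d : ℕ × K → Prop, F d ∧ vNsSub J c d) ∧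
      ∀ H : (ℕ × K → Prop) → (ℕ × K → Prop) → Prop, vMap F H →
        ∃ c : ℕ × K → Prop, vOmega c ∧
          ∀ d : ℕ × K → Prop, ∀ d' : ℕ × K → Prop, F d ∧ H d d' → ¬ vNSub J c d' := by
    simp only [vCof, iInf_Prop_eq, iSup_Prop_eq, inf_Prop_eq, himp_iff_imp, compl_iff_not,
      Subtype.forall, and_assoc]
    constructor
    · rintro ⟨h1, h2, h3⟩
      exact ⟨h1, h2, fun H hH => h3 H (ext2_prop H) hH⟩
    · rintro ⟨h1, h2, h3⟩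
      exact ⟨h1, h2, fun H _ hH => h3 H hH⟩
  rw [e]
  refine and_congr_right fun hF => ?_
  have hF' := (vIn_iff F).1 hF
  constructor
  · rintro ⟨h1, h2⟩
    refine ⟨fun c hc => ?_, ?_, ?_⟩
    · obtain ⟨c0, h0, h0'⟩ := hF' _ hc
      exact gr_inj h0 ▸ h0'
    · intro c hc
      obtain ⟨d, hd, hcd⟩ := h1 (gr c) ((vOmega_gr c).2 hc)
      obtain ⟨d0, rfl, -⟩ := hF' d hd
      exact ⟨d0, hd, (vNsSub_gr J _ _).1 hcd⟩
    · intro H hH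
      obtain ⟨c, hc, hcd⟩ := h2 (Gr H) (vMap_Gr hF hH)
      obtain ⟨c0, rfl, hc0⟩ := (vOmega_prop c).1 hc
      exact ⟨c0, hc0, fun d hd h =>
        hcd (gr d) (gr (H d)) ⟨hd, d, rfl, rfl⟩ ((vNSub_gr J _ _).2 h)⟩
  · rintro ⟨-, h1, h2⟩
    constructor
    · intro c hc
      obtain ⟨c0, rfl, hc0⟩ := (vOmega_prop c).1 hc
      obtain ⟨d, hd, hcd⟩ := h1 c0 hc0
      exact ⟨gr d, hd, (vNsSub_gr J _ _).2 hcd⟩
    · intro H hH
      obtain ⟨H0, hH0, hHH⟩ := exists_map hF hH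
      obtain ⟨c, hc, hcd⟩ := h2 H0 hH0
      refine ⟨gr c, (vOmega_gr c).2 hc, fun d d' h h' => ?_⟩
      obtain ⟨d0, rfl, rfl⟩ := hHH d d' h.1 h.2
      exact hcd d0 h.1 ((vNSub_gr J _ _).1 h')

/-- The set of graphs of a set of sequences. -/
def grs (F : Set (ℕ → K)) (c : ℕ × K → Prop) : Prop := ∃ c0 ∈ F, c = gr c0

lemma grs_gr (F : Set (ℕ → K)) : {c | grs F (gr c)} = F := by
  ext c
  exact ⟨fun ⟨c0, h, h'⟩ => gr_inj h' ▸ h, fun h => ⟨c, h, rfl⟩⟩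

lemma vIn_grs {F : Set (ℕ → K)} (h : ∀ c ∈ F, OmegaBar fun n => (c n : Set Cantor)) :
    vIn (grs F) := (vIn_iff _).2 fun _ ⟨c0, h0, h1⟩ => ⟨c0, h1, h c0 h0⟩

/-- The predicate of a set of sets. -/
def toJ (J : Set (Set ℕ)) (x : ℕ → Prop) : Prop := {n | x n} ∈ J

lemma ofJ_toJ (J : Set (Set ℕ)) : ofJ (toJ J) = J := rfl

lemma vNonMeager_ofJ (J : (ℕ → Prop) → Prop) : vNonMeager J ↔ NonMeager (ofJ J) :=
  vNonMeager_prop (ofJ J)

end Sane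

open Sane

theorem phi1_prop : phi1 Prop ↔
    ∃ J, IsIdeal J ∧ NonMeager J ∧ add (calN J) ≠ add (calNs J) := by
  have e : phi1 Prop ↔ ∃ J : (ℕ → Prop) → Prop, (vIdeal J ∧ vNonMeager J) ∧
      ∃ F : (ℕ × K → Prop) → Prop, vAdd J F := by
    simp only [phi1, iSup_Prop_eq, inf_Prop_eq, Subtype.exists]
    constructor
    · rintro ⟨J, -, h1, F, -, h2⟩
      exact ⟨J, h1, F, h2⟩
    · rintro ⟨J, h1, F, h2⟩
      exact ⟨J, ext_prop J, h1, F, ext_prop F, h2⟩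
  rw [e]
  constructor
  · rintro ⟨J, ⟨h1, h2⟩, F, h3⟩
    have h4 := (vIdeal_prop J).1 h1
    exact ⟨ofJ J, h4, (vNonMeager_ofJ J).1 h2,
      ((add_lt_iff h4).2 ⟨_, ((vAdd_prop J F).1 h3).2⟩).ne⟩
  · rintro ⟨J, h1, h2, h3⟩
    obtain ⟨F, hF⟩ := (add_lt_iff h1).1 (lt_of_le_of_ne (Z72.add_le_adds h1) h3)
    refine ⟨toJ J, ⟨(vIdeal_prop _).2 h1, (vNonMeager_ofJ _).2 h2⟩, grs F, ?_⟩
    rw [vAdd_prop, grs_gr]
    exact ⟨vIn_grs hF.1, hF⟩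

theorem phi2_prop : phi2 Prop ↔
    ∃ J, IsIdeal J ∧ NonMeager J ∧ cof (calN J) ≠ cof (calNs J) := by
  have e : phi2 Prop ↔ ∃ J : (ℕ → Prop) → Prop, (vIdeal J ∧ vNonMeager J) ∧
      ∃ F : (ℕ × K → Prop) → Prop, vCof J F := by
    simp only [phi2, iSup_Prop_eq, inf_Prop_eq, Subtype.exists]
    constructor
    · rintro ⟨J, -, h1, F, -, h2⟩
      exact ⟨J, h1, F, h2⟩
    · rintro ⟨J, h1, F, h2⟩
      exact ⟨J, ext_prop J, h1, F, ext_prop F, h2⟩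
  rw [e]
  constructor
  · rintro ⟨J, ⟨h1, h2⟩, F, h3⟩
    have h4 := (vIdeal_prop J).1 h1
    exact ⟨ofJ J, h4, (vNonMeager_ofJ J).1 h2,
      ((cof_lt_iff h4).2 ⟨_, ((vCof_prop J F).1 h3).2⟩).ne'⟩
  · rintro ⟨J, h1, h2, h3⟩
    obtain ⟨F, hF⟩ := (cof_lt_iff h1).1 (lt_of_le_of_ne (Z72.cofs_le_cof h1) h3.symm)
    refine ⟨toJ J, ⟨(vIdeal_prop _).2 h1, (vNonMeager_ofJ _).2 h2⟩, grs F, ?_⟩
    rw [vCof_prop, grs_gr]
    exact ⟨vIn_grs hF.1, hF⟩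

end Pool.Agent.Sc72
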