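import Pool.Agent.Sc72.Names

/-!
Sequences of clopen sets and points: Boolean-valued and at residually many families.
-/

namespace Pool.Agent.Sc72

open Set Filter TopologicalSpace Cardinal MeasureTheory Pool.Agent.Nm65 Pool.Agent.Fo65

/-! ### the tail criterion -/

theorem tail_union_eq (c : ℕ → Set Cantor) (m : ℕ) :
    (⋃ n, ⋃ _ : m ≤ n, c n) = ⋃ l : ℕ, ⋃ n : Fin l, ⋃ _ : m ≤ (n : ℕ), c n := by
  ext x
  simp only [mem_iUnion]
  constructor
  · rintro ⟨n, hn, hx⟩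
    exact ⟨n + 1, ⟨n, Nat.lt_succ_self n⟩, hn, hx⟩
  · rintro ⟨l, n, hn, hx⟩
    exact ⟨n, hn, hx⟩

theorem limsup_eq (c : ℕ → Set Cantor) :
    {x | {n | x ∈ c n}.Infinite} = ⋂ m : ℕ, ⋃ n, ⋃ _ : m ≤ n, c n := by
  ext x
  simp only [mem_iInter, mem_iUnion]
  show {n | x ∈ c n}.Infinite ↔ _
  constructor
  · intro h m
    obtain ⟨n, hn1, hn2⟩ := h.exists_gt m
    exact ⟨n, hn2.le, hn1⟩
  · intro h
    refine Set.infinite_of_not_bddAbove ?_
    rintro ⟨b, hb⟩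
    obtain ⟨n, hn, hx⟩ := h (b + 1)
    have := hb (show n ∈ {n | x ∈ c n} from hx)
    omega

theorem omegaBar_iff_tail {c : ℕ → Set Cantor} (hc : ∀ n, IsClopen (c n)) :
    OmegaBar c ↔ ∀ k : ℕ, ∃ m : ℕ, ∀ l : ℕ,
      mu (⋃ n : Fin l, ⋃ _ : m ≤ (n : ℕ), c n) ≤ (1 / 2) ^ k := by
  have hmeas : ∀ m : ℕ, MeasurableSet (⋃ n, ⋃ _ : m ≤ n, c n) := fun m =>
    MeasurableSet.iUnion fun n => MeasurableSet.iUnion fun _ => (hc n).isOpen.measurableSet
  have hanti : Antitone fun m : ℕ => ⋃ n, ⋃ _ : m ≤ n, c n := by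
    intro a b hab x hx
    simp only [mem_iUnion] at hx ⊢
    obtain ⟨n, hn, hx⟩ := hx
    exact ⟨n, hab.trans hn, hx⟩
  have hmono : ∀ m : ℕ, Monotone fun l : ℕ => ⋃ n : Fin l, ⋃ _ : m ≤ (n : ℕ), c n := by
    intro m a b hab x hx
    simp only [mem_iUnion] at hx ⊢
    obtain ⟨n, hn, hx⟩ := hx
    exact ⟨⟨n, n.2.trans_le hab⟩, hn, hx⟩
  have hle : ∀ (m : ℕ) (k : ℕ), (∀ l : ℕ, mu (⋃ n : Fin l, ⋃ _ : m ≤ (n : ℕ), c n) ≤ (1 / 2) ^ k) ↔
      mu (⋃ n, ⋃ _ : m ≤ n, c n) ≤ (1 / 2) ^ k := by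
    intro m k
    rw [tail_union_eq, (hmono m).measure_iUnion, iSup_le_iff]
  have hlim : Tendsto (fun m : ℕ => mu (⋃ n, ⋃ _ : m ≤ n, c n)) atTop
      (nhds (mu (⋂ m : ℕ, ⋃ n, ⋃ _ : m ≤ n, c n))) :=
    tendsto_measure_iInter_atTop (fun m => (hmeas m).nullMeasurableSet) hanti
      ⟨0, measure_ne_top _ _⟩
  constructor
  · rintro ⟨-, h0⟩ k
    rw [limsup_eq] at h0
    rw [h0] at hlim
    have hpos : (0 : ENNReal) < (1 / 2) ^ k := by
      apply ENNReal.pow_pos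
      simp
    obtain ⟨m, hm⟩ := ((tendsto_order.1 hlim).2 _ hpos).exists
    exact ⟨m, (hle m k).2 hm.le⟩
  · intro h
    refine ⟨hc, ?_⟩
    rw [limsup_eq]
    apply nonpos_iff_eq_zero.1
    refine le_of_forall_pos_le_add ?_
    intro ε hε
    rw [zero_add]
    have hz : Tendsto (fun k : ℕ => ((1 : ENNReal) / 2) ^ k) atTop (nhds 0) :=
      ENNReal.tendsto_pow_atTop_nhds_zero_of_lt_one (by simp)
    obtain ⟨k, hk⟩ := ((tendsto_order.1 hz).2 ε hε).exists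
    obtain ⟨m, hm⟩ := h k
    exact (measure_mono (iInter_subset _ m)).trans (((hle m k).1 hm).trans hk.le)

/-! ### initial segments -/

theorem exists_cylL {U : Set Cantor} (hU : IsOpen U) {y : Cantor} (hy : y ∈ U) :
    ∃ s : List Bool, cylL s ⊆ U ∧ y ∈ cylL s := by
  obtain ⟨S, u, hu, hsub⟩ := isOpen_pi_iff.1 hU y hy
  obtain ⟨N, hN⟩ := S.bddAbove
  refine ⟨List.ofFn fun i : Fin (N + 1) => y i, ?_, ?_⟩
  · intro z hz
    apply hsub
    intro i hi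
    have h1 : i ≤ N := hN hi
    have h2 : i < (List.ofFn fun i : Fin (N + 1) => y i).length := by
      rw [List.length_ofFn]; omega
    have h3 : z i = (List.ofFn fun i : Fin (N + 1) => y i).get ⟨i, h2⟩ := hz ⟨i, h2⟩
    rw [List.get_ofFn] at h3
    have h4 : z i = y i := h3
    rw [h4]
    exact (hu i hi).2
  · intro i
    rw [List.get_ofFn]
    rfl

theorem mem_iff_cylL {U : Set Cantor} (hU : IsOpen U) {y : Cantor} :
    y ∈ U ↔ ∃ s : List Bool, cylL s ⊆ U ∧ y ∈ cylL s :=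
  ⟨exists_cylL hU, fun ⟨_, h1, h2⟩ => h1 h2⟩

/-! ### sequences -/

variable {I : Type}

/-- `c` is at `p` the sequence `c0`. -/
def At (c : ℕ × K → RO (Coh I)) (p : Coh I) (c0 : ℕ → K) : Prop := ∀ n a, In p (c (n, a)) ↔ c0 n = a

/-- `x` is at `p` the point `y`. -/
def PtAt (x : ℕ → RO (Coh I)) (p : Coh I) (y : Cantor) : Prop := ∀ n, In p (x n) ↔ y n = true

theorem frc_all {ι : Sort*} [Countable ι] {φ : ι → Coh I → Prop} (h : ∀ i, Frc (φ i)) :
    Frc fun p => ∀ i, φ i p := eventually_countable_forall.2 h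

theorem ev_vFun (c : ℕ × K → RO (Coh I)) :
    Frc fun p => In p (vFun c) ↔ ∃ c0 : ℕ → K, At c p c0 := by
  have h1 : Frc fun p => In p (⨅ n : ℕ, ⨆ a : K, c (n, a)) ↔ ∀ n, In p (⨆ a : K, c (n, a)) :=
    frc_iInf _
  have h2 : Frc fun p => ∀ n : ℕ, In p (⨆ a : K, c (n, a)) ↔ ∃ a : K, In p (c (n, a)) :=
    frc_all fun n => frc_iSup _
  have h3 : Frc fun p => In p (⨅ n : ℕ, ⨅ a : K, ⨅ b : K, ⨅ _ : a ≠ b, (c (n, a) ⊓ c (n, b))ᶜ) ↔
      ∀ n, In p (⨅ a : K, ⨅ b : K, ⨅ _ : a ≠ b, (c (n, a) ⊓ c (n, b))ᶜ) := frc_iInf _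
  have h4 : Frc fun p => ∀ n : ℕ, In p (⨅ a : K, ⨅ b : K, ⨅ _ : a ≠ b, (c (n, a) ⊓ c (n, b))ᶜ) ↔
      ∀ a : K, In p (⨅ b : K, ⨅ _ : a ≠ b, (c (n, a) ⊓ c (n, b))ᶜ) := frc_all fun n => frc_iInf _
  have h5 : Frc fun p => ∀ (n : ℕ) (a : K), In p (⨅ b : K, ⨅ _ : a ≠ b, (c (n, a) ⊓ c (n, b))ᶜ) ↔
      ∀ b : K, In p (⨅ _ : a ≠ b, (c (n, a) ⊓ c (n, b))ᶜ) :=
    frc_all fun n => frc_all fun a => frc_iInf _
  have h6 : Frc fun p => ∀ (n : ℕ) (a b : K), In p (⨅ _ : a ≠ b, (c (n, a) ⊓ c (n, b))ᶜ) ↔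
      ∀ _ : a ≠ b, In p (c (n, a) ⊓ c (n, b))ᶜ :=
    frc_all fun n => frc_all fun a => frc_all fun b => frc_iInf _
  have h7 : Frc fun p => ∀ (n : ℕ) (a b : K), In p (c (n, a) ⊓ c (n, b))ᶜ ↔
      ¬ In p (c (n, a) ⊓ c (n, b)) :=
    frc_all fun n => frc_all fun a => frc_all fun b => frc_compl _
  show ∀ᶠ p in residual (Coh I), _
  filter_upwards [h1, h2, h3, h4, h5, h6, h7] with p h1 h2 h3 h4 h5 h6 h7
  have e0 : In p (vFun c) ↔ In p (⨅ n : ℕ, ⨆ a : K, c (n, a)) ∧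
      In p (⨅ n : ℕ, ⨅ a : K, ⨅ b : K, ⨅ _ : a ≠ b, (c (n, a) ⊓ c (n, b))ᶜ) := Iff.rfl
  rw [e0, h1, h3]
  constructor
  · rintro ⟨ha, hb⟩
    have ha' : ∀ n, ∃ a : K, In p (c (n, a)) := fun n => (h2 n).1 (ha n)
    choose c0 hc0 using ha'
    refine ⟨c0, fun n a => ⟨fun h => ?_, fun h => h ▸ hc0 n⟩⟩
    by_contra hne
    have e1 := (h7 n (c0 n) a).1 ((h6 n (c0 n) a).1 ((h5 n (c0 n)).1 ((h4 n).1 (hb n) (c0 n)) a) hne)
    exact e1 ⟨hc0 n, h⟩
  · rintro ⟨c0, hc0⟩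
    refine ⟨fun n => (h2 n).2 ⟨c0 n, (hc0 n (c0 n)).2 rfl⟩, fun n => (h4 n).2 fun a =>
      (h5 n a).2 fun b => (h6 n a b).2 fun hab => (h7 n a b).2 ?_⟩
    rintro ⟨e1, e2⟩
    exact hab (((hc0 n a).1 e1).symm.trans ((hc0 n b).1 e2))

theorem ev_vNull (c : ℕ × K → RO (Coh I)) :
    Frc fun p => In p (vNull c) ↔ ∀ k : ℕ, ∃ m : ℕ, ∀ l : ℕ, ∃ f : Fin l → K,
      mu (⋃ n : Fin l, ⋃ _ : m ≤ (n : ℕ), (f n : Set Cantor)) ≤ (1 / 2) ^ k ∧
        ∀ n : Fin l, In p (c (n, f n)) := by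
  unfold vNull
  have h1 := fun (k m l : ℕ) (f : Fin l → K) => frc_iInf (I := I) (fun n : Fin l => c ((n : ℕ), f n))
  have h2 := fun (k m l : ℕ) (f : Fin l → K) => frc_iSup (I := I)
    (fun _ : mu (⋃ n : Fin l, ⋃ _ : m ≤ (n : ℕ), (f n : Set Cantor)) ≤ (1 / 2) ^ k =>
      ⨅ n : Fin l, c ((n : ℕ), f n))
  have h3 := fun (k m l : ℕ) => frc_iSup (I := I) (fun f : Fin l → K =>
    ⨆ _ : mu (⋃ n : Fin l, ⋃ _ : m ≤ (n : ℕ), (f n : Set Cantor)) ≤ (1 / 2) ^ k,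
      ⨅ n : Fin l, c ((n : ℕ), f n))
  have h4 := fun (k m : ℕ) => frc_iInf (I := I) (fun l : ℕ => ⨆ f : Fin l → K,
    ⨆ _ : mu (⋃ n : Fin l, ⋃ _ : m ≤ (n : ℕ), (f n : Set Cantor)) ≤ (1 / 2) ^ k,
      ⨅ n : Fin l, c ((n : ℕ), f n))
  have h5 := fun (k : ℕ) => frc_iSup (I := I) (fun m : ℕ => ⨅ l : ℕ, ⨆ f : Fin l → K,
    ⨆ _ : mu (⋃ n : Fin l, ⋃ _ : m ≤ (n : ℕ), (f n : Set Cantor)) ≤ (1 / 2) ^ k,
      ⨅ n : Fin l, c ((n : ℕ), f n))
  have h6 := frc_iInf (I := I) (fun k : ℕ => ⨆ m : ℕ, ⨅ l : ℕ, ⨆ f : Fin l → K,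
    ⨆ _ : mu (⋃ n : Fin l, ⋃ _ : m ≤ (n : ℕ), (f n : Set Cantor)) ≤ (1 / 2) ^ k,
      ⨅ n : Fin l, c ((n : ℕ), f n))
  have g1 := frc_all fun k => frc_all fun m => frc_all fun l => frc_all fun f => h1 k m l f
  have g2 := frc_all fun k => frc_all fun m => frc_all fun l => frc_all fun f => h2 k m l f
  have g3 := frc_all fun k => frc_all fun m => frc_all fun l => h3 k m l
  have g4 := frc_all fun k => frc_all fun m => h4 k m
  have g5 := frc_all fun k => h5 k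
  show ∀ᶠ p in residual (Coh I), _
  filter_upwards [g1, g2, g3, g4, g5, h6] with p g1 g2 g3 g4 g5 h6
  rw [h6]
  refine forall_congr' fun k => ?_
  rw [g5 k]
  refine exists_congr fun m => ?_
  rw [g4 k m]
  refine forall_congr' fun l => ?_
  rw [g3 k m l]
  refine exists_congr fun f => ?_
  rw [g2 k m l f, g1 k m l f, exists_prop]

theorem ev_vOmega (c : ℕ × K → RO (Coh I)) : Frc fun p => In p (vOmega c) ↔
      ∃ c0 : ℕ → K, At c p c0 ∧ OmegaBar fun n => (c0 n : Set Cantor) := by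
  have h1 := ev_vFun c
  have h2 := ev_vNull c
  show ∀ᶠ p in residual (Coh I), _
  filter_upwards [h1, h2] with p h1 h2
  have e0 : In p (vOmega c) ↔ In p (vFun c) ∧ In p (vNull c) := Iff.rfl
  rw [e0, h1, h2]
  constructor
  · rintro ⟨⟨c0, hc0⟩, h⟩
    refine ⟨c0, hc0, ?_⟩
    rw [omegaBar_iff_tail fun n => (c0 n).isClopen]
    intro k
    obtain ⟨m, hm⟩ := h k
    refine ⟨m, fun l => ?_⟩
    obtain ⟨f, hf1, hf2⟩ := hm l
    have e : ∀ n : Fin l, c0 n = f n := fun n => (hc0 n (f n)).1 (hf2 n)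
    simp only [e]
    exact hf1
  · rintro ⟨c0, hc0, h⟩
    rw [omegaBar_iff_tail fun n => (c0 n).isClopen] at h
    refine ⟨⟨c0, hc0⟩, fun k => ?_⟩
    obtain ⟨m, hm⟩ := h k
    exact ⟨m, fun l => ⟨fun n => c0 n, hm l, fun n => (hc0 n (c0 n)).2 rfl⟩⟩

theorem ev_vInit (x : ℕ → RO (Coh I)) : Frc fun p =>
    ∀ (y : Cantor), PtAt x p y → ∀ s : List Bool, In p (vInit s x) ↔ y ∈ cylL s := by
  have h1 := frc_all fun s : List Bool => frc_iInf (I := I)
    (fun i : Fin s.length => if s.get i = true then x i else (x i)ᶜ)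
  have h2 := frc_all fun n : ℕ => frc_compl (x n)
  show ∀ᶠ p in residual (Coh I), _
  filter_upwards [h1, h2] with p h1 h2
  intro y hy s
  unfold vInit
  rw [h1 s]
  refine forall_congr' fun i => ?_
  by_cases hs : s.get i = true
  · rw [if_pos hs, hy i, hs]
  · rw [if_neg hs, h2 i, hy i]
    rw [Bool.not_eq_true] at hs
    rw [hs, Bool.not_eq_true]

theorem ev_vMem (x : ℕ → RO (Coh I)) (c : ℕ × K → RO (Coh I)) : Frc fun p =>
    ∀ (y : Cantor) (c0 : ℕ → K), PtAt x p y → At c p c0 → ∀ n, In p (vMem x c n) ↔ y ∈ c0 n := by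
  have h1 := frc_all fun n : ℕ => frc_iSup (I := I) (fun a : K =>
    c (n, a) ⊓ ⨆ s : List Bool, ⨆ _ : cylL s ⊆ a, vInit s x)
  have h2 := frc_all fun a : K => frc_iSup (I := I)
    (fun s : List Bool => ⨆ _ : cylL s ⊆ a, vInit s x)
  have h3 := frc_all fun a : K => frc_all fun s : List Bool => frc_iSup (I := I)
    (fun _ : cylL s ⊆ a => vInit s x)
  have h4 := ev_vInit x
  show ∀ᶠ p in residual (Coh I), _
  filter_upwards [h1, h2, h3, h4] with p h1 h2 h3 h4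
  intro y c0 hy hc n
  refine (h1 n).trans ?_
  have e1 : y ∈ c0 n ↔ y ∈ (c0 n : Set Cantor) := Iff.rfl
  rw [e1, mem_iff_cylL (c0 n).isClopen.isOpen]
  constructor
  · rintro ⟨a, ha, hs⟩
    obtain ⟨s, hs⟩ := (h2 a).1 hs
    obtain ⟨hs1, hs2⟩ := (h3 a s).1 hs
    have e2 := (hc n a).1 ha
    rw [e2]
    exact ⟨s, hs1, (h4 y hy s).1 hs2⟩
  · rintro ⟨s, hs1, hs2⟩
    refine ⟨c0 n, (hc n (c0 n)).2 rfl, (h2 _).2 ⟨s, (h3 _ s).2 ⟨hs1, (h4 y hy s).2 hs2⟩⟩⟩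

theorem omegaBar_bot : OmegaBar fun _ => ((⊥ : K) : Set Cantor) := by
  refine ⟨fun _ => isClopen_empty, ?_⟩
  simp

open Classical in
/-- The name of a member of OmegaBar which is `c` where `c` is a member of OmegaBar. -/
theorem seq_of (c : ℕ × K → RO (Coh I)) : ∃ c' : Coh I → ℕ → K, OBName c' ∧
    Frc fun p => In p (vOmega c) → At c p (c' p) := by
  let cond : Coh I → Prop := fun p => In p (vOmega c) ∧ ∀ n : ℕ, (∃ a : K, In p (c (n, a))) ∧
    ∀ a b : K, In p (c (n, a)) → In p (c (n, b)) → a = b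
  have hcond : MeasurableSet {p | cond p} := by
    have e : {p | cond p} = {p | In p (vOmega c)} ∩ ⋂ n : ℕ, ((⋃ a : K, {p | In p (c (n, a))}) ∩
        ⋂ a : K, ⋂ b : K, ({p | In p (c (n, a))}ᶜ ∪ {p | In p (c (n, b))}ᶜ ∪ {_p | a = b})) := by
      ext p
      simp only [mem_ofPred_eq, mem_inter_iff, mem_iInter, mem_iUnion, mem_union, mem_compl_iff, cond]
      refine and_congr Iff.rfl (forall_congr' fun n => and_congr Iff.rfl
        (forall_congr' fun a => forall_congr' fun b => ?_))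
      tauto
    rw [e]
    refine (measurable_In _).inter (MeasurableSet.iInter fun n =>
      (MeasurableSet.iUnion fun a => measurable_In _).inter
      (MeasurableSet.iInter fun a => MeasurableSet.iInter fun b =>
        ((measurable_In _).compl.union (measurable_In _).compl).union (MeasurableSet.const _)))
  let c' : Coh I → ℕ → K := fun p n =>
    if h : cond p then (h.2 n).1.choose else ⊥
  have hAt : ∀ p, cond p → At c p (c' p) := by
    intro p h n a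
    have h1 : In p (c (n, (h.2 n).1.choose)) := (h.2 n).1.choose_spec
    have h2 : c' p n = (h.2 n).1.choose := dif_pos h
    rw [h2]
    exact ⟨fun h3 => (h.2 n).2 _ _ h1 h3, fun h3 => h3 ▸ h1⟩
  have hbot : ∀ p, ¬ cond p → c' p = fun _ => ⊥ := fun p h => funext fun n => dif_neg h
  refine ⟨c', ⟨fun n a => ?_, ?_⟩, ?_⟩
  · have e : {p | c' p n = a} = ({p | cond p} ∩ {p | In p (c (n, a))}) ∪
        ({p | cond p}ᶜ ∩ {_p | (⊥ : K) = a}) := by
      ext p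
      simp only [mem_ofPred_eq, mem_union, mem_inter_iff, mem_compl_iff]
      by_cases h : cond p
      · simp only [h, true_and, not_true, false_and, or_false]
        exact (hAt p h n a).symm
      · simp only [h, false_and, not_false_eq_true, true_and, false_or]
        rw [hbot p h]
    rw [e]
    exact (hcond.inter (measurable_In _)).union (hcond.compl.inter (MeasurableSet.const _))
  · have h1 := ev_vOmega c
    show ∀ᶠ p in residual (Coh I), _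
    filter_upwards [h1] with p h1
    by_cases h : cond p
    · obtain ⟨c0, hc0, hO⟩ := h1.1 h.1
      have e : c' p = c0 := funext fun n => ((hAt p h n (c0 n)).1 ((hc0 n (c0 n)).2 rfl))
      rw [e]
      exact hO
    · rw [hbot p h]
      exact omegaBar_bot
  · have h1 := ev_vOmega c
    show ∀ᶠ p in residual (Coh I), _
    filter_upwards [h1] with p h1
    intro hp
    obtain ⟨c0, hc0, hO⟩ := h1.1 hp
    apply hAt
    refine ⟨hp, fun n => ⟨⟨c0 n, (hc0 n (c0 n)).2 rfl⟩, fun a b ha hb => ?_⟩⟩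
    exact ((hc0 n a).1 ha).symm.trans ((hc0 n b).1 hb)

theorem of_seq {c' : Coh I → ℕ → K} (hc : OBName c') : ∃ c : ℕ × K → RO (Coh I),
    vOmega c = ⊤ ∧ Frc fun p => At c p (c' p) := by
  have hAt : Frc fun p => At (fun q : ℕ × K => val fun p => c' p q.1 = q.2) p (c' p) :=
    frc_all fun n => frc_all fun a => frc_val (hc.1 n a)
  refine ⟨fun q => val fun p => c' p q.1 = q.2, ?_, hAt⟩
  rw [eq_top_iff']
  have h1 := ev_vOmega (fun q : ℕ × K => val fun p : Coh I => c' p q.1 = q.2)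
  have h2 := hc.2
  show ∀ᶠ p in residual (Coh I), _
  filter_upwards [h1, h2, hAt] with p h1 h2 h3
  exact h1.2 ⟨c' p, h3, h2⟩

open Classical in
/-- Points, in both directions. -/
theorem point_of (x : ℕ → RO (Coh I)) : ∃ y : Coh I → Cantor, Measurable y ∧
    ∀ p, PtAt x p (y p) := by
  refine ⟨fun p n => decide (In p (x n)), ?_, fun p n => by simp⟩
  rw [measurable_pi_iff]
  intro n
  apply measurable_to_bool
  have e : (fun p : Coh I => decide (In p (x n))) ⁻¹' {true} = {p | In p (x n)} := by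
    ext p
    simp
  rw [e]
  exact measurable_In _

theorem of_point {y : Coh I → Cantor} (hy : Measurable y) : ∃ x : ℕ → RO (Coh I),
    Frc fun p => PtAt x p (y p) := by
  refine ⟨fun n => val fun p => y p n = true, frc_all fun n => frc_val ?_⟩
  have h1 : Measurable fun p => y p n := (measurable_pi_iff.1 hy) n
  exact h1 (measurableSet_singleton true)

end Pool.Agent.Sc72
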